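import Mathlib

/-!
# Kulkarni–Nomizu products of two symmetric forms: diagonalisable pairs
-/

set_option autoImplicit false

namespace Pool.Agent.Q188.KN

open Module

variable {V : Type*} [AddCommGroup V] [Module ℝ V]

/-- the Kulkarni–Nomizu product of two bilinear forms -/
def kn (H K : V →ₗ[ℝ] V →ₗ[ℝ] ℝ) (x y z w : V) : ℝ :=
  H x z * K y w + K x z * H y w - H x w * K y z - K x w * H y z

/-- its sectional values are nonnegative -/
def SecN (H K : V →ₗ[ℝ] V →ₗ[ℝ] ℝ) : Prop :=
  ∀ x y, 0 ≤ H x x * K y y + K x x * H y y - 2 * (H x y * K x y)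

/-- it is nonnegative on bivectors -/
def OpN (H K : V →ₗ[ℝ] V →ₗ[ℝ] ℝ) : Prop :=
  ∀ (n : ℕ) (a b : Fin n → V), 0 ≤ ∑ i, ∑ j, kn H K (a i) (b i) (a j) (b j)

def Symm (H : V →ₗ[ℝ] V →ₗ[ℝ] ℝ) : Prop := ∀ x y, H x y = H y x

theorem diag_apply {ι : Type*} [Fintype ι] [DecidableEq ι] (v : Basis ι ℝ V)
    {H : V →ₗ[ℝ] V →ₗ[ℝ] ℝ} (hH : ∀ i j, i ≠ j → H (v i) (v j) = 0) (x y : V) :
    H x y = ∑ k, v.repr x k * v.repr y k * H (v k) (v k) := by
  conv_lhs => rw [← v.sum_repr x, ← v.sum_repr y]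
  simp only [map_sum, map_smul, LinearMap.sum_apply, LinearMap.smul_apply, smul_eq_mul]
  refine Finset.sum_congr rfl fun k _ => ?_
  rw [Finset.sum_eq_single k]
  · ring
  · intro j _ hj
    rw [hH j k hj]; ring
  · simp

theorem kn_diag {ι : Type*} [Fintype ι] [DecidableEq ι] (v : Basis ι ℝ V)
    {H K : V →ₗ[ℝ] V →ₗ[ℝ] ℝ} (hH : ∀ i j, i ≠ j → H (v i) (v j) = 0)
    (hK : ∀ i j, i ≠ j → K (v i) (v j) = 0) (x y z w : V) :
    kn H K x y z w = ∑ k, ∑ l, 1 / 2 * (H (v k) (v k) * K (v l) (v l) +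
      K (v k) (v k) * H (v l) (v l)) *
      ((v.repr x k * v.repr y l - v.repr x l * v.repr y k) *
        (v.repr z k * v.repr w l - v.repr z l * v.repr w k)) := by
  unfold kn
  rw [diag_apply v hH x z, diag_apply v hK y w, diag_apply v hK x z, diag_apply v hH y w,
    diag_apply v hH x w, diag_apply v hK y z, diag_apply v hK x w, diag_apply v hH y z]
  simp only [Finset.sum_mul_sum]
  set f : ι → ι → ℝ := fun k l => (H (v k) (v k) * K (v l) (v l) + K (v k) (v k) * H (v l) (v l)) *
    (v.repr x k * v.repr y l * (v.repr z k * v.repr w l - v.repr z l * v.repr w k)) with hf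
  have e1 : ∑ k, ∑ l, f k l = ∑ k, ∑ l, f l k := Finset.sum_comm
  have e2 : ∑ k, ∑ l, 1 / 2 * (H (v k) (v k) * K (v l) (v l) +
      K (v k) (v k) * H (v l) (v l)) *
      ((v.repr x k * v.repr y l - v.repr x l * v.repr y k) *
        (v.repr z k * v.repr w l - v.repr z l * v.repr w k)) =
      1 / 2 * (∑ k, ∑ l, f k l) + 1 / 2 * ∑ k, ∑ l, f l k := by
    simp only [Finset.mul_sum, ← Finset.sum_add_distrib]
    refine Finset.sum_congr rfl fun k _ => Finset.sum_congr rfl fun l _ => ?_
    rw [hf]; ring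
  rw [e2, ← e1]
  have e3 : ∑ k, ∑ l, f k l = ∑ k, ∑ l,
      (v.repr x k * v.repr z k * H (v k) (v k) * (v.repr y l * v.repr w l * K (v l) (v l)) +
      v.repr x k * v.repr z k * K (v k) (v k) * (v.repr y l * v.repr w l * H (v l) (v l)) -
      v.repr x k * v.repr w k * H (v k) (v k) * (v.repr y l * v.repr z l * K (v l) (v l)) -
      v.repr x k * v.repr w k * K (v k) (v k) * (v.repr y l * v.repr z l * H (v l) (v l))) := by
    refine Finset.sum_congr rfl fun k _ => Finset.sum_congr rfl fun l _ => ?_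
    rw [hf]; ring
  rw [e3]
  simp only [Finset.sum_sub_distrib, Finset.sum_add_distrib]
  ring

/-- forms with a common orthogonal basis -/
theorem op_of_basis {ι : Type*} [Fintype ι] [DecidableEq ι] (v : Basis ι ℝ V)
    {H K : V →ₗ[ℝ] V →ₗ[ℝ] ℝ} (hH : ∀ i j, i ≠ j → H (v i) (v j) = 0)
    (hK : ∀ i j, i ≠ j → K (v i) (v j) = 0) (hs : SecN H K) : OpN H K := by
  intro n a b
  simp only [kn_diag v hH hK]
  set p : Fin n → ι → ι → ℝ := fun i k l =>
    v.repr (a i) k * v.repr (b i) l - v.repr (a i) l * v.repr (b i) k with hp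
  have e : ∑ i, ∑ j, ∑ k, ∑ l, 1 / 2 * (H (v k) (v k) * K (v l) (v l) +
      K (v k) (v k) * H (v l) (v l)) * (p i k l * p j k l) =
      ∑ k, ∑ l, 1 / 2 * (H (v k) (v k) * K (v l) (v l) +
      K (v k) (v k) * H (v l) (v l)) * (∑ i, p i k l) ^ 2 := by
    have e1 : ∀ i : Fin n, ∑ j, ∑ k, ∑ l, 1 / 2 * (H (v k) (v k) * K (v l) (v l) +
        K (v k) (v k) * H (v l) (v l)) * (p i k l * p j k l) =
        ∑ k, ∑ l, 1 / 2 * (H (v k) (v k) * K (v l) (v l) +
        K (v k) (v k) * H (v l) (v l)) * (p i k l * ∑ j, p j k l) := by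
      intro i
      rw [Finset.sum_comm]
      refine Finset.sum_congr rfl fun k _ => ?_
      rw [Finset.sum_comm]
      refine Finset.sum_congr rfl fun l _ => ?_
      rw [Finset.mul_sum, Finset.mul_sum]
    simp only [e1]
    rw [Finset.sum_comm]
    refine Finset.sum_congr rfl fun k _ => ?_
    rw [Finset.sum_comm]
    refine Finset.sum_congr rfl fun l _ => ?_
    rw [sq, ← Finset.mul_sum, ← Finset.sum_mul]
  rw [e]
  refine Finset.sum_nonneg fun k _ => Finset.sum_nonneg fun l _ => ?_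
  by_cases hkl : k = l
  · subst hkl
    have : ∀ i, p i k k = 0 := fun i => by rw [hp]; ring
    simp [this]
  · have h1 := hs (v k) (v l)
    rw [hH k l hkl] at h1
    have h2 : 0 ≤ H (v k) (v k) * K (v l) (v l) + K (v k) (v k) * H (v l) (v l) := by linarith
    positivity

/-- simultaneous diagonalisation -/
theorem joint_basis [FiniteDimensional ℝ V] {G M : V →ₗ[ℝ] V →ₗ[ℝ] ℝ} (hG : Symm G)
    (hM : Symm M) (hpos : ∀ x, x ≠ 0 → 0 < G x x) :
    ∃ v : Basis (Fin (finrank ℝ V)) ℝ V, (∀ i j, i ≠ j → G (v i) (v j) = 0) ∧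
      ∀ i j, i ≠ j → M (v i) (v j) = 0 := by
  let core : InnerProductSpace.Core ℝ V :=
    { inner := fun x y => G x y
      conj_inner_symm := fun x y => by simp [hG y x]
      re_inner_nonneg := fun x => by
        by_cases h : x = 0
        · simp [h]
        · simpa using (hpos x h).le
      add_left := fun x y z => by simp
      smul_left := fun x y r => by simp
      definite := fun x h => by
        by_contra hx
        exact (hpos x hx).ne' h }
  let _ : NormedAddCommGroup V := core.toNormedAddCommGroup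
  let _ : InnerProductSpace ℝ V := InnerProductSpace.ofCore core.toCore
  have hin : ∀ x y : V, inner ℝ x y = G x y := fun _ _ => rfl
  let T : V →ₗ[ℝ] V :=
    { toFun := fun x => (InnerProductSpace.toDual ℝ V).symm (LinearMap.toContinuousLinearMap (M x))
      map_add' := fun x y => by simp
      map_smul' := fun c x => by simp }
  have hT : ∀ x y, inner ℝ (T x) y = M x y := by
    intro x y
    show inner ℝ ((InnerProductSpace.toDual ℝ V).symm (LinearMap.toContinuousLinearMap (M x))) y = _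
    rw [InnerProductSpace.toDual_symm_apply]
    rfl
  have hsym : T.IsSymmetric := by
    intro x y
    rw [hT, real_inner_comm, hT, hM]
  let b := hsym.eigenvectorBasis (n := finrank ℝ V) rfl
  refine ⟨b.toBasis, ?_, ?_⟩
  · intro i j hij
    have : inner ℝ (b i) (b j) = 0 := b.orthonormal.2 hij
    rw [hin] at this
    simpa using this
  · intro i j hij
    rw [OrthonormalBasis.coe_toBasis, ← hT]
    have h2 : T (b i) = (hsym.eigenvalues (n := finrank ℝ V) rfl i : ℝ) • b i :=
      hsym.apply_eigenvectorBasis (n := finrank ℝ V) rfl i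
    have h3 : inner ℝ (b i) (b j) = 0 := b.orthonormal.2 hij
    rw [h2, inner_smul_left, h3]
    simp

theorem op_of_pos [FiniteDimensional ℝ V] {H K : V →ₗ[ℝ] V →ₗ[ℝ] ℝ} (hH : Symm H)
    (hK : Symm K) (α β : ℝ) (hpos : ∀ x, x ≠ 0 → 0 < α * H x x + β * K x x)
    (hs : SecN H K) : OpN H K := by
  let G : V →ₗ[ℝ] V →ₗ[ℝ] ℝ := α • H + β • K
  have hG : Symm G := fun x y => by simp [G, hH x y, hK x y]
  have hGp : ∀ x, x ≠ 0 → 0 < G x x := fun x hx => by simpa [G] using hpos x hx
  by_cases hα : α = 0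
  · obtain ⟨v, h1, h2⟩ := joint_basis hG hH hGp
    refine op_of_basis v h2 (fun i j hij => ?_) hs
    have h3 := h1 i j hij
    simp only [G, hα, zero_smul, zero_add, LinearMap.smul_apply, smul_eq_mul] at h3
    rcases mul_eq_zero.1 h3 with h4 | h4
    · have h5 := hGp (v i) (v.ne_zero i)
      simp only [G, hα, h4, zero_smul, add_zero, LinearMap.zero_apply] at h5
      exact absurd h5 (lt_irrefl _)
    · exact h4
  · obtain ⟨v, h1, h2⟩ := joint_basis hG hK hGp
    refine op_of_basis v (fun i j hij => ?_) h2 hs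
    have h3 := h1 i j hij
    simp only [G, LinearMap.add_apply, LinearMap.smul_apply, smul_eq_mul, h2 i j hij, mul_zero,
      add_zero] at h3
    exact (mul_eq_zero.1 h3).resolve_left hα

end Pool.Agent.Q188.KN
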