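import Pool.Agent.Q188.KN.Neg

/-!
# Definitions for the statement, with forms as functions
-/

set_option autoImplicit false

namespace Pool.Agent.Q188.KN

open Module Pool.Agent.W666.GB Pool.Agent.TH598.GV

variable {V : Type} [NormedAddCommGroup V] [InnerProductSpace ℝ V] {m : ℕ}

/-- symmetric bilinear forms -/
structure SymForm (f : V → V → ℝ) : Prop where
  symm : ∀ x y, f x y = f y x
  add : ∀ x x' y, f (x + x') y = f x y + f x' y
  smul : ∀ (t : ℝ) (x y : V), f (t • x) y = t * f x y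

/-- the Kulkarni–Nomizu product of `f` and `g` -/
def knp (f g : V → V → ℝ) (x y z w : V) : ℝ :=
  f x z * g y w + g x z * f y w - f x w * g y z - g x w * f y z

/-- the bilinear map -/
noncomputable def SymForm.map {f : V → V → ℝ} (h : SymForm f) : V →ₗ[ℝ] V →ₗ[ℝ] ℝ :=
  LinearMap.mk₂ ℝ f h.add (fun t x y => by rw [h.smul, smul_eq_mul])
    (fun x y y' => by rw [h.symm, h.add, h.symm y, h.symm y'])
    (fun t x y => by rw [h.symm, h.smul, h.symm y, smul_eq_mul])

theorem SymForm.map_apply {f : V → V → ℝ} (h : SymForm f) (x y : V) : h.map x y = f x y := rfl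

theorem SymForm.map_symm {f : V → V → ℝ} (h : SymForm f) : Symm h.map := fun x y => h.symm x y

theorem knp_map {f g : V → V → ℝ} (hf : SymForm f) (hg : SymForm g) :
    kn hf.map hg.map = knp f g := rfl

theorem op2 [FiniteDimensional ℝ V] {f g : V → V → ℝ} (hf : SymForm f) (hg : SymForm g)
    (hs : ∀ x y, knp f g x y x y ≤ 0) (n : ℕ) (a b : Fin n → V) :
    ∑ i, ∑ j, knp f g (a i) (b i) (a j) (b j) ≤ 0 := by
  rw [← knp_map hf hg] at hs ⊢
  exact op_nonpos hf.map_symm hg.map_symm hs n a b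

theorem strict2 (e : OrthonormalBasis (Fin m × Bool) ℝ V) {f g : V → V → ℝ} (hf : SymForm f)
    (hg : SymForm g) (hm : 2 ≤ m)
    (hs : ∀ x y, LinearIndependent ℝ ![x, y] → knp f g x y x y < 0) :
    0 < (-1) ^ m * gbc e (knp f g) := by
  rw [← knp_map hf hg] at hs ⊢
  exact strict_sign e hf.map_symm hg.map_symm hm hs

theorem hyper2 (e : OrthonormalBasis (Fin m × Bool) ℝ V) {R T : V → V → V → V → ℝ}
    (hR : AlgCurv R) {κ : ℝ} (hκ : 0 ≤ κ) (hC : CxNonpos (shiftT R κ)) (S : Submodule ℝ V)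
    (hS : finrank ℝ S + 1 = 2 * m) {f g : V → V → ℝ} (hf : SymForm f) (hg : SymForm g)
    (hs : ∀ x ∈ S, ∀ y ∈ S, knp f g x y x y ≤ 0) (hT : OpNonposOn T S)
    (hRT : ∀ x ∈ S, ∀ y ∈ S, ∀ z ∈ S, ∀ w ∈ S, R x y z w = knp f g x y z w + T x y z w) :
    roundGB m κ ≤ (-1) ^ m * gbc e R := by
  rw [← knp_map hf hg] at hs hRT
  exact hyper_sign e hR hκ hC S hS hf.map_symm hg.map_symm hs hT hRT

/-- The curvature tensor which the Gauss equation gives in codimension two: the normal plane has a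
frame `ξ, η` with `⟨ξ, ξ⟩ = a`, `⟨ξ, η⟩ = b`, `⟨η, η⟩ = d`, the second fundamental form is
`f ξ + g η`, and the ambient curvature is `-c`. -/
noncomputable def gauss2 (a b d : ℝ) (f g : V → V → ℝ) (c : ℝ) (x y z w : V) : ℝ :=
  a / 2 * knp f f x y z w + b * knp f g x y z w + d / 2 * knp g g x y z w -
    c * (inner ℝ x z * inner ℝ y w - inner ℝ x w * inner ℝ y z)

theorem gauss2_bound (e : OrthonormalBasis (Fin m × Bool) ℝ V) {a b d : ℝ} {f g : V → V → ℝ}
    (hf : SymForm f) (hg : SymForm g) {c : ℝ} (hc : 0 ≤ c)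
    (hs : ∀ x y, gauss2 a b d f g 0 x y x y ≤ 0) :
    roundGB m c ≤ (-1) ^ m * gbc e (gauss2 a b d f g c) := by
  let q : (Fin 2 → ℝ) →ₗ[ℝ] (Fin 2 → ℝ) →ₗ[ℝ] ℝ :=
    LinearMap.mk₂ ℝ (fun u v => a * (u 0 * v 0) + b * (u 0 * v 1 + u 1 * v 0) + d * (u 1 * v 1))
      (fun u u' v => by simp; ring) (fun t u v => by simp; ring)
      (fun u v v' => by simp; ring) (fun t u v => by simp; ring)
  let β : V →ₗ[ℝ] V →ₗ[ℝ] (Fin 2 → ℝ) :=
    LinearMap.mk₂ ℝ (fun x y => ![f x y, g x y])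
      (fun x x' y => by ext i; fin_cases i <;> simp [hf.add, hg.add])
      (fun t x y => by ext i; fin_cases i <;> simp [hf.smul, hg.smul])
      (fun x y y' => by
        ext i; fin_cases i <;> simp [hf.symm x, hg.symm x, hf.add, hg.add])
      (fun t x y => by
        ext i; fin_cases i <;> simp [hf.symm x, hg.symm x, hf.smul, hg.smul])
  have hq : ∀ u v, q u v = a * (u 0 * v 0) + b * (u 0 * v 1 + u 1 * v 0) + d * (u 1 * v 1) :=
    fun _ _ => rfl
  have hβ : ∀ x y, β x y = ![f x y, g x y] := fun _ _ => rfl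
  have key : gauss2 a b d f g c = gaussQ q β c := by
    funext x y z w
    simp only [gauss2, gaussQ, knp, hq, hβ, Matrix.cons_val_zero, Matrix.cons_val_one]
    ring
  rw [key]
  refine gaussQ_bound e q (fun u v => by rw [hq, hq]; ring)
    β (fun x y => by rw [hβ, hβ, hf.symm, hg.symm]) (by simp) hc fun x y => ?_
  have h1 := hs x y
  simp only [gauss2, knp, hf.symm y x, hg.symm y x] at h1
  simp only [hq, hβ, Matrix.cons_val_zero, Matrix.cons_val_one]
  linarith

end Pool.Agent.Q188.KN
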