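import Pool.Agent.Q188.KN.Strict
import Pool.Agent.TH598.GV.Field2
import Pool.Agent.Y489.SM.Gc

/-!
# The Gauss–Bonnet–Chern integrand for codimension two
-/

set_option autoImplicit false

namespace Pool.Agent.Q188.KN

open Module Pool.Agent.W666.GB Pool.Agent.TH598.GV

variable {V : Type} [NormedAddCommGroup V] [InnerProductSpace ℝ V] {m : ℕ}

theorem kn_curv {H K : V →ₗ[ℝ] V →ₗ[ℝ] ℝ} (hH : Symm H) (hK : Symm K) : AlgCurv (kn H K) where
  add x x' y z w := by simp only [kn, map_add, LinearMap.add_apply]; ring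
  smul t x y z w := by simp only [kn, map_smul, LinearMap.smul_apply, smul_eq_mul]; ring
  anti x y z w := by simp only [kn]; ring
  pair x y z w := by
    simp only [kn, hH z x, hK w y, hK z x, hH w y, hH z y, hK w x, hK z y, hH w x]; ring
  bianchi x y z w := by
    simp only [kn, hH y x, hK y x, hH z x, hK z x, hH z y, hK z y]; ring

/-- the constant curvature tensor minus `c` -/
noncomputable def minusUnit (R : V → V → V → V → ℝ) (c : ℝ) (x y z w : V) : ℝ :=
  R x y z w - c * (inner ℝ x z * inner ℝ y w - inner ℝ x w * inner ℝ y z)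

theorem minusUnit_curv {R : V → V → V → V → ℝ} (hR : AlgCurv R) (c : ℝ) :
    AlgCurv (minusUnit R c) := by
  have h := shift_curv hR (-c)
  have e : minusUnit R c = shiftT R (-c) := by
    funext x y z w
    simp only [minusUnit, shiftT]; ring
  rw [e]; exact h

/-- nonpositive sectional values of `kn H K` on all pairs -/
def KNonpos (H K : V →ₗ[ℝ] V →ₗ[ℝ] ℝ) : Prop := ∀ x y, kn H K x y x y ≤ 0

theorem KNonpos.sec {H K : V →ₗ[ℝ] V →ₗ[ℝ] ℝ} (hH : Symm H) (hK : Symm K) (h : KNonpos H K) :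
    SecN (-H) K := by
  intro x y
  have := h x y
  simp only [kn, hH y x, hK y x] at this
  simp only [LinearMap.neg_apply]
  linarith

theorem kn_neg_left (H K : V →ₗ[ℝ] V →ₗ[ℝ] ℝ) (x y z w : V) :
    kn (-H) K x y z w = -kn H K x y z w := by
  simp only [kn, LinearMap.neg_apply]; ring

/-- the operator theorem, nonpositive version -/
theorem op_nonpos [FiniteDimensional ℝ V] {H K : V →ₗ[ℝ] V →ₗ[ℝ] ℝ} (hH : Symm H) (hK : Symm K)
    (h : KNonpos H K) (n : ℕ) (a b : Fin n → V) :
    ∑ i, ∑ j, kn H K (a i) (b i) (a j) (b j) ≤ 0 := by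
  have h1 := op_nonneg hH.neg hK (h.sec hH hK) n a b
  simp only [kn_neg_left, Finset.sum_neg_distrib] at h1
  linarith

theorem cx_of_op {R : V → V → V → V → ℝ} (hR : AlgCurv R)
    (h : ∀ (n : ℕ) (a b : Fin n → V), ∑ i, ∑ j, R (a i) (b i) (a j) (b j) ≤ 0) : CxNonpos R := by
  intro x y u v
  have h1 := h 2 ![x, y] ![u, -v]
  have h2 := h 2 ![x, y] ![v, u]
  simp only [Fin.sum_univ_two, Matrix.cons_val_zero, Matrix.cons_val_one] at h1 h2
  have e3 : ∀ a b c d : V, R a (-b) c d = - R a b c d := fun a b c d => by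
    rw [hR.anti (-b) a, ← neg_one_smul ℝ b, hR.smul, hR.anti b a]; ring
  have e4 : ∀ a b c d : V, R a b c (-d) = - R a b c d := fun a b c d => by
    rw [hR.pair c (-d) a b, e3, hR.pair a b c d]
  simp only [e3, e4] at h1
  have p1 := hR.pair x u y v
  have p2 := hR.pair x v y u
  linarith

/-- the constant curvature tensor is nonnegative on bivectors -/
theorem unit_op [FiniteDimensional ℝ V] (n : ℕ) (a b : Fin n → V) :
    0 ≤ ∑ i, ∑ j, (inner ℝ (a i) (a j) * inner ℝ (b i) (b j) -
      inner ℝ (a i) (b j) * inner ℝ (b i) (a j) : ℝ) := by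
  have hs : Symm (innerₗ V) := fun x y => by
    rw [innerₗ_apply_apply, innerₗ_apply_apply, real_inner_comm]
  have h1 := op_nonneg hs hs (fun x y => by
    simp only [innerₗ_apply_apply]
    have := real_inner_mul_inner_self_le x y
    linarith) n a b
  simp only [kn, innerₗ_apply_apply] at h1
  have e : ∀ i j, inner ℝ (a i) (a j) * inner ℝ (b i) (b j) +
      inner ℝ (a i) (a j) * inner ℝ (b i) (b j) - inner ℝ (a i) (b j) * inner ℝ (b i) (a j) -
      inner ℝ (a i) (b j) * inner ℝ (b i) (a j) =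
      2 * (inner ℝ (a i) (a j) * inner ℝ (b i) (b j) -
      inner ℝ (a i) (b j) * inner ℝ (b i) (a j) : ℝ) := fun i j => by ring
  simp only [e, ← Finset.mul_sum] at h1
  linarith

theorem exists_hyperplane (e : OrthonormalBasis (Fin m × Bool) ℝ V) (hm : 1 ≤ m) :
    ∃ S : Submodule ℝ V, finrank ℝ S + 1 = 2 * m := by
  have hfin : FiniteDimensional ℝ V := Module.Finite.of_basis e.toBasis
  have hcard : finrank ℝ V = 2 * m := by
    rw [finrank_eq_card_basis e.toBasis, Fintype.card_prod, Fintype.card_fin, Fintype.card_bool,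
      mul_comm]
  have i0 : Fin m × Bool := (⟨0, by omega⟩, false)
  refine ⟨(ℝ ∙ e i0)ᗮ, ?_⟩
  have h2 := Submodule.finrank_add_finrank_orthogonal (K := ℝ ∙ e i0)
  have h3 : finrank ℝ (ℝ ∙ e i0) = 1 :=
    finrank_span_singleton (by
      intro h0
      have := e.orthonormal.1 i0
      rw [h0, norm_zero] at this
      exact zero_ne_one this)
  omega

theorem gbc_zero (e : OrthonormalBasis (Fin 0 × Bool) ℝ V) (R : V → V → V → V → ℝ) (c : ℝ) :
    roundGB 0 c ≤ (-1) ^ 0 * gbc e R := by
  simp [roundGB, gbc]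

/-- nonpositive operators with a shift -/
theorem sign_of_op (e : OrthonormalBasis (Fin m × Bool) ℝ V) {R : V → V → V → V → ℝ}
    (hR : AlgCurv R) {c : ℝ} (hc : 0 ≤ c)
    (h : ∀ (n : ℕ) (a b : Fin n → V), ∑ i, ∑ j, R (a i) (b i) (a j) (b j) ≤ 0) :
    roundGB m c ≤ (-1) ^ m * gbc e (minusUnit R c) := by
  have hfin : FiniteDimensional ℝ V := Module.Finite.of_basis e.toBasis
  rcases Nat.eq_zero_or_pos m with rfl | hm
  · exact gbc_zero e _ c
  obtain ⟨S, hS⟩ := exists_hyperplane e hm
  refine point_strong e (minusUnit_curv hR c) hc ?_ S hS ?_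
  · have e1 : shiftT (minusUnit R c) c = R := by
      funext x y z w
      simp only [minusUnit, shiftT]; ring
    rw [e1]
    exact cx_of_op hR h
  · intro n a b _ _
    have h1 := h n a b
    have h2 := unit_op n a b
    simp only [minusUnit, Finset.sum_sub_distrib, ← Finset.mul_sum]
    have h3 : ∑ i, ∑ j, (inner ℝ (a i) (a j) * inner ℝ (b i) (b j) -
      inner ℝ (a i) (b j) * inner ℝ (b i) (a j) : ℝ) =
      ∑ i, ∑ j, inner ℝ (a i) (a j) * inner ℝ (b i) (b j) -
      ∑ i, ∑ j, (inner ℝ (a i) (b j) * inner ℝ (b i) (a j) : ℝ) := by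
      simp only [Finset.sum_sub_distrib]
    rw [h3] at h2
    have h4 := mul_nonneg hc h2
    linarith

end Pool.Agent.Q188.KN
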