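import Pool.Agent.Q188.KN.Op

/-!
# Kulkarni–Nomizu products with nonnegative sectional values: the theorem
-/

set_option autoImplicit false

namespace Pool.Agent.Q188.KN

open Module

/-- dimension at most two -/
theorem op_dim_two {V : Type*} [AddCommGroup V] [Module ℝ V] [FiniteDimensional ℝ V]
    {H K : V →ₗ[ℝ] V →ₗ[ℝ] ℝ} (hH : Symm H) (hK : Symm K) (hs : SecN H K)
    (hd : finrank ℝ V ≤ 2) : OpN H K := by
  obtain ⟨e, f, hef⟩ : ∃ e f : V, ∀ x, ∃ p q : ℝ, x = p • e + q • f := by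
    obtain h | h | h : finrank ℝ V = 0 ∨ finrank ℝ V = 1 ∨ finrank ℝ V = 2 := by omega
    · have := finrank_zero_iff.1 h
      exact ⟨0, 0, fun x => ⟨0, 0, Subsingleton.elim _ _⟩⟩
    · obtain ⟨v, -, hv⟩ := finrank_eq_one_iff'.1 h
      refine ⟨v, 0, fun x => ?_⟩
      obtain ⟨c, hc⟩ := hv x
      exact ⟨c, 0, by rw [← hc]; simp⟩
    · let b := finBasisOfFinrankEq ℝ V h
      refine ⟨b 0, b 1, fun x => ⟨b.repr x 0, b.repr x 1, ?_⟩⟩
      conv_lhs => rw [← b.sum_repr x]
      rw [Fin.sum_univ_two]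
  choose p q hpq using hef
  have key : ∀ x y z w, kn H K x y z w =
      (p x * q y - q x * p y) * (p z * q w - q z * p w) *
        (H e e * K f f + K e e * H f f - 2 * (H e f * K e f)) := by
    intro x y z w
    unfold kn
    conv_lhs => rw [hpq x, hpq y, hpq z, hpq w]
    simp only [map_add, map_smul, LinearMap.add_apply, LinearMap.smul_apply, smul_eq_mul, hH f e,
      hK f e]
    ring
  intro n a b
  simp only [key]
  simp only [← Finset.sum_mul, ← Finset.mul_sum]
  refine mul_nonneg ?_ (hs e f)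
  exact mul_self_nonneg _

variable {V : Type*} [NormedAddCommGroup V] [InnerProductSpace ℝ V] [FiniteDimensional ℝ V]

theorem cont_diag (H : V →ₗ[ℝ] V →ₗ[ℝ] ℝ) : Continuous fun x => H x x := by
  let H' : V →ₗ[ℝ] (V →L[ℝ] ℝ) :=
    (LinearMap.toContinuousLinearMap : (V →ₗ[ℝ] ℝ) ≃ₗ[ℝ] (V →L[ℝ] ℝ)).toLinearMap ∘ₗ H
  have h1 : Continuous H' := LinearMap.continuous_of_finiteDimensional _
  exact h1.clm_apply continuous_id

/-- a small multiple of `H` makes `K ≥ 0` positive if `H` is positive on the kernel of `K` -/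
theorem pos_small {H K : V →ₗ[ℝ] V →ₗ[ℝ] ℝ} (hK0 : ∀ x, 0 ≤ K x x)
    (hpos : ∀ x, x ≠ 0 → K x x = 0 → 0 < H x x) :
    ∃ ε : ℝ, ∀ x, x ≠ 0 → 0 < ε * H x x + 1 * K x x := by
  have key : ∃ ε : ℝ, ∀ x, ‖x‖ = 1 → 0 < ε * H x x + K x x := by
    set S := Metric.sphere (0 : V) 1 with hS
    have hc : IsCompact S := isCompact_sphere 0 1
    set A := S ∩ {x | H x x ≤ 0} with hA
    have hAc : IsCompact A := hc.inter_right (isClosed_le (cont_diag H) continuous_const)
    have hAne : ∀ x ∈ A, 0 < K x x := by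
      rintro x ⟨hx, hx2⟩
      rcases (hK0 x).lt_or_eq with h | h
      · exact h
      · have hx0 : x ≠ 0 := by
          rintro rfl
          simp [hS] at hx
        exact absurd (hpos x hx0 h.symm) (not_lt.2 hx2)
    rcases A.eq_empty_or_nonempty with hE | hne
    · refine ⟨1, fun x hx => ?_⟩
      have hxA : x ∉ A := by rw [hE]; simp
      have hx1 : 0 < H x x := by
        by_contra h
        exact hxA ⟨by simpa [hS] using hx, not_lt.1 h⟩
      have := hK0 x
      linarith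
    · obtain ⟨x0, hx0, hmin⟩ := hAc.exists_isMinOn hne (cont_diag K).continuousOn
      obtain ⟨x1, hx1, hmin1⟩ := hAc.exists_isMinOn hne (cont_diag H).continuousOn
      have hk := hAne x0 hx0
      have hh : H x1 x1 ≤ 0 := hx1.2
      set c := -(H x1 x1) with hcdef
      have hc0 : 0 ≤ c := by linarith
      have hε : 0 < K x0 x0 / (c + 1) := by positivity
      refine ⟨K x0 x0 / (c + 1), fun x hx => ?_⟩
      by_cases hxA : x ∈ A
      · have h1 : K x0 x0 ≤ K x x := hmin hxA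
        have h2 : H x1 x1 ≤ H x x := hmin1 hxA
        have h3 : K x0 x0 / (c + 1) * H x1 x1 ≤ K x0 x0 / (c + 1) * H x x :=
          mul_le_mul_of_nonneg_left h2 hε.le
        have h4 : K x0 x0 / (c + 1) * H x1 x1 > -K x0 x0 := by
          have : H x1 x1 = -c := by rw [hcdef, neg_neg]
          rw [this, mul_neg, div_mul_eq_mul_div]
          refine neg_lt_neg ?_
          rw [div_lt_iff₀ (by linarith)]
          nlinarith
        linarith
      · have hx1 : 0 < H x x := by
          by_contra h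
          exact hxA ⟨by simpa [hS] using hx, not_lt.1 h⟩
        have := hK0 x
        have := mul_pos hε hx1
        linarith
  obtain ⟨ε, hε⟩ := key
  refine ⟨ε, fun x hx => ?_⟩
  have hn : 0 < ‖x‖ := norm_pos_iff.2 hx
  have h1 := hε (‖x‖⁻¹ • x) (by rw [norm_smul, norm_inv, norm_norm, inv_mul_cancel₀ hn.ne'])
  simp only [map_smul, LinearMap.smul_apply, smul_eq_mul] at h1
  have h2 : ε * (‖x‖⁻¹ * (‖x‖⁻¹ * H x x)) + ‖x‖⁻¹ * (‖x‖⁻¹ * K x x) =
      (‖x‖⁻¹ * ‖x‖⁻¹) * (ε * H x x + 1 * K x x) := by ring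
  rw [h2] at h1
  exact (mul_pos_iff_of_pos_left (by positivity)).1 h1

omit [FiniteDimensional ℝ V] in
/-- a vector in the kernel of `K` with `H x x = 0` which is not in the kernel of `H` -/
theorem rank_one_of {H K : V →ₗ[ℝ] V →ₗ[ℝ] ℝ} (hs : SecN H K) (hH : Symm H) (hK : Symm K) {x : V}
    (hx : ∀ y, K x y = 0) (hxx : H x x = 0) {y0 : V} (hy0 : H x y0 ≠ 0) :
    ∃ κ : ℝ, ∀ y z, K y z = κ * (H x y * H x z) := by
  have hid := linear_id hs hH hK hx hxx
  -- `H x z * K y y = H x y * K z y`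
  have h0 : ∀ y, H x y = 0 → K y y = 0 := by
    intro y hy
    have := hid y0 y
    rw [hy, zero_mul] at this
    exact (mul_eq_zero.1 this).resolve_left hy0
  have h1 : ∀ y, H x y ≠ 0 → ∀ z, K z y = H x z * (K y y / H x y) := by
    intro y hy z
    have := hid z y
    field_simp
    linarith
  refine ⟨K y0 y0 / (H x y0 * H x y0), fun y z => ?_⟩
  have h2 : ∀ z, K z y0 = H x z * (K y0 y0 / H x y0) := h1 y0 hy0
  have h3 : ∀ u v, H x u = 0 → H x v = 0 → K u v = 0 := by
    intro u v hu hv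
    have a1 := h0 (u + v) (by rw [map_add, hu, hv, add_zero])
    have a2 := h0 u hu
    have a3 := h0 v hv
    simp only [map_add, LinearMap.add_apply, a2, a3, hK v u] at a1
    linarith
  have h4 := h3 (y - (H x y / H x y0) • y0) (z - (H x z / H x y0) • y0)
    (by rw [map_sub, map_smul, smul_eq_mul, div_mul_cancel₀ _ hy0, sub_self])
    (by rw [map_sub, map_smul, smul_eq_mul, div_mul_cancel₀ _ hy0, sub_self])
  simp only [map_sub, map_smul, LinearMap.sub_apply, LinearMap.smul_apply, smul_eq_mul,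
    hK y0 z] at h4
  rw [h2 y, h2 z] at h4
  set a := H x y
  set b := H x z
  set c := H x y0
  set d := K y0 y0
  have e : K y z = b / c * (a * (d / c)) + a / c * (b * (d / c)) - a / c * (b / c * d) := by
    linarith
  rw [e]
  field_simp
  ring

/-- the case `K ≥ 0` -/
theorem op_semidef {H K : V →ₗ[ℝ] V →ₗ[ℝ] ℝ} (hs : SecN H K) (hH : Symm H) (hK : Symm K)
    (hnk : ∀ x, (∀ y, H x y = 0) → (∀ y, K x y = 0) → x = 0) (hK0 : ∀ x, 0 ≤ K x x) :
    OpN H K := by
  by_cases hz : ∀ y, K y y = 0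
  · exact op_of_zero fun x y =>
      ker_of_null hK ⊤ (fun x _ => hK0 x) (Submodule.mem_top (x := x)) (hz x) Submodule.mem_top
  push Not at hz
  obtain ⟨y1, hy1⟩ := hz
  have hy1' : 0 < K y1 y1 := lt_of_le_of_ne (hK0 y1) (Ne.symm hy1)
  have hker : ∀ x, K x x = 0 → ∀ y, K x y = 0 := fun x hx y =>
    ker_of_null hK ⊤ (fun x _ => hK0 x) (Submodule.mem_top (x := x)) hx Submodule.mem_top
  by_cases hex : ∃ x, x ≠ 0 ∧ K x x = 0 ∧ H x x ≤ 0
  · obtain ⟨x, hx0, hx1, hx2⟩ := hex
    have hx3 : 0 ≤ H x x := by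
      have h1 := hs x y1
      rw [hx1, hker x hx1 y1] at h1
      have h3 : 0 ≤ H x x * K y1 y1 := by linarith
      exact nonneg_of_mul_nonneg_left h3 hy1'
    obtain ⟨y0, hy0⟩ : ∃ y0, H x y0 ≠ 0 := by
      by_contra hno
      push Not at hno
      exact hx0 (hnk x hno (hker x hx1))
    obtain ⟨κ, hκ⟩ := rank_one_of hs hH hK (hker x hx1) (le_antisymm hx2 hx3) hy0
    refine op_rank_one hs (H x) κ ?_ hκ
    have h1 := hK0 y0
    rw [hκ] at h1
    exact nonneg_of_mul_nonneg_left h1 (mul_self_pos.2 hy0)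
  · push Not at hex
    obtain ⟨ε, hε⟩ := pos_small (H := H) hK0 fun x hx hx' => hex x hx hx'
    exact op_of_pos hH hK ε 1 hε hs

/-- without common kernel -/
theorem op_main {H K : V →ₗ[ℝ] V →ₗ[ℝ] ℝ} (hs : SecN H K) (hH : Symm H) (hK : Symm K)
    (hnk : ∀ x, (∀ y, H x y = 0) → (∀ y, K x y = 0) → x = 0) : OpN H K := by
  by_cases hK0 : ∀ x, 0 ≤ K x x
  · exact op_semidef hs hH hK hnk hK0
  by_cases hK1 : ∀ x, K x x ≤ 0
  · refine OpN.of_neg (op_semidef hs.neg hH.neg hK.neg (fun x h1 h2 => hnk x (fun y => ?_)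
      (fun y => ?_)) fun x => ?_)
    · simpa using h1 y
    · simpa using h2 y
    · simpa using hK1 x
  push Not at hK0 hK1
  by_cases hd : finrank ℝ V ≤ 2
  · exact op_dim_two hH hK hs hd
  push Not at hd
  have hnd : ∀ x, (∀ y, K x y = 0) → x = 0 := by
    intro x hx
    have hxx : H x x = 0 := by
      obtain ⟨t, ht⟩ := hK0
      obtain ⟨s, hs1⟩ := hK1
      have h1 := hs x t
      have h2 := hs x s
      rw [hx x, hx t] at h1
      rw [hx x, hx s] at h2
      nlinarith
    by_cases hno : ∀ y, H x y = 0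
    · exact hnk x hno hx
    push Not at hno
    obtain ⟨y0, hy0⟩ := hno
    obtain ⟨κ, hκ⟩ := rank_one_of hs hH hK hx hxx hy0
    exfalso
    obtain ⟨t, ht⟩ := hK0
    obtain ⟨s, hs1⟩ := hK1
    rw [hκ] at ht hs1
    have h1 : 0 ≤ H x t * H x t := mul_self_nonneg _
    have h2 : 0 ≤ H x s * H x s := mul_self_nonneg _
    rcases le_or_gt 0 κ with h | h
    · have := mul_nonneg h h1
      linarith
    · have := mul_nonpos_of_nonpos_of_nonneg h.le h2
      linarith
  by_cases h0 : ∀ x, K x x = 0 → H x x = 0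
  · exact op_null_zero hH hK hs hd hnd hK1 hK0 h0
  push Not at h0
  obtain ⟨x, hx, hHx⟩ := h0
  rcases lt_or_gt_of_ne hHx with h | h
  · obtain ⟨t, ht⟩ := lor_of_null (H := -H) (K := -K) hK.neg hs.neg (fun x h1 => hnd x fun y => by
      simpa using h1 y) (x := x) (by simpa using hx) (by simpa using h) (by
        obtain ⟨s, hs1⟩ := hK1
        exact ⟨s, by simpa using hs1⟩)
    exact OpN.of_neg (op_lor hH.neg hK.neg hs.neg hd ht)
  · obtain ⟨t, ht⟩ := lor_of_null hK hs hnd hx h hK0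
    exact op_lor hH hK hs hd ht

/-- **A Kulkarni–Nomizu product of two symmetric forms with nonnegative sectional values is
nonnegative on all bivectors.** -/
theorem op_nonneg {H K : V →ₗ[ℝ] V →ₗ[ℝ] ℝ} (hH : Symm H) (hK : Symm K) (hs : SecN H K) :
    OpN H K := by
  let Z : Submodule ℝ V :=
    { carrier := {x | (∀ y, H x y = 0) ∧ ∀ y, K x y = 0}
      add_mem' := fun {x x'} hx hx' => ⟨fun y => by simp [hx.1 y, hx'.1 y],
        fun y => by simp [hx.2 y, hx'.2 y]⟩
      zero_mem' := ⟨fun y => by simp, fun y => by simp⟩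
      smul_mem' := fun c x hx => ⟨fun y => by simp [hx.1 y], fun y => by simp [hx.2 y]⟩ }
  have hZ : ∀ z ∈ Z, (∀ y, H z y = 0) ∧ (∀ y, K z y = 0) := fun z hz => hz
  set U := Zᗮ with hU
  let H' : U →ₗ[ℝ] U →ₗ[ℝ] ℝ := H.compl₁₂ U.subtype U.subtype
  let K' : U →ₗ[ℝ] U →ₗ[ℝ] ℝ := K.compl₁₂ U.subtype U.subtype
  have hdec : ∀ x : V, ∃ u : U, ∃ z ∈ Z, x = u + z := by
    intro x
    obtain ⟨y, hy, z, hz, h⟩ := Z.exists_add_mem_mem_orthogonal x
    exact ⟨⟨z, hz⟩, y, hy, by rw [h]; exact add_comm _ _⟩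
  have hmain : OpN H' K' := by
    refine op_main (fun x y => hs x y) (fun x y => hH x y) (fun x y => hK x y) fun x h1 h2 => ?_
    have hx : (x : V) ∈ Z := by
      refine ⟨fun y => ?_, fun y => ?_⟩
      · obtain ⟨u, z, hz, rfl⟩ := hdec y
        rw [map_add, hH x z, (hZ z hz).1, add_zero]
        exact h1 u
      · obtain ⟨u, z, hz, rfl⟩ := hdec y
        rw [map_add, hK x z, (hZ z hz).2, add_zero]
        exact h2 u
    have h3 : inner ℝ (x : V) (x : V) = 0 := Submodule.inner_right_of_mem_orthogonal hx x.2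
    exact Subtype.ext (inner_self_eq_zero.1 h3)
  choose u z hz huz using hdec
  intro n a b
  have h1 := hmain n (fun i => u (a i)) (fun i => u (b i))
  have hHe : ∀ x y, H x y = H (u x) (u y) := by
    intro x y
    conv_lhs => rw [huz x, huz y]
    simp only [map_add, LinearMap.add_apply, (hZ _ (hz x)).1, hH _ (z y), (hZ _ (hz y)).1]
    ring
  have hKe : ∀ x y, K x y = K (u x) (u y) := by
    intro x y
    conv_lhs => rw [huz x, huz y]
    simp only [map_add, LinearMap.add_apply, (hZ _ (hz x)).2, hK _ (z y), (hZ _ (hz y)).2]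
    ring
  have h2 : ∀ x y z w, kn H K x y z w = kn H' K' (u x) (u y) (u z) (u w) := by
    intro x y z w
    unfold kn
    rw [hHe x z, hKe y w, hKe x z, hHe y w, hHe x w, hKe y z, hKe x w, hHe y z]
    rfl
  simp only [h2]
  exact h1

end Pool.Agent.Q188.KN
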