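import Pool.Agent.Q188.KN.Sig

/-!
# Negative sectional curvature, and one hyperplane
-/

set_option autoImplicit false

namespace Pool.Agent.Q188.KN

open Module Pool.Agent.W666.GB Pool.Agent.TH598.GV

variable {V : Type} [NormedAddCommGroup V] [InnerProductSpace ℝ V] {m : ℕ}

/-- coordinates of a bivector -/
noncomputable def pc {ι : Type*} (v : Basis ι ℝ V) (x y : V) (k l : ι) : ℝ :=
  v.repr x k * v.repr y l - v.repr x l * v.repr y k

theorem curv_expand {ι : Type*} [Fintype ι] (v : Basis ι ℝ V) {R : V → V → V → V → ℝ}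
    (hR : AlgCurv R) (x y z w : V) :
    R x y z w = ∑ k, ∑ l, 1 / 2 * (pc v x y k l * R (v k) (v l) z w) := by
  let L : V →ₗ[ℝ] V →ₗ[ℝ] ℝ := LinearMap.mk₂ ℝ (fun x y => R x y z w)
    (fun x x' y => hR.add x x' y z w) (fun c x y => by rw [hR.smul, smul_eq_mul])
    (fun x y y' => by
      rw [hR.anti (y + y') x, hR.add, hR.anti x y, hR.anti x y']; ring)
    (fun c x y => by rw [hR.anti (c • y) x, hR.smul, hR.anti x y, smul_eq_mul]; ring)
  have hL : ∀ x y, L x y = R x y z w := fun _ _ => rfl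
  have h1 : L x y = ∑ k, ∑ l, v.repr x k * v.repr y l * L (v k) (v l) := by
    conv_lhs => rw [← v.sum_repr x, ← v.sum_repr y]
    rw [map_sum L, LinearMap.sum_apply]
    refine Finset.sum_congr rfl fun k _ => ?_
    rw [map_sum]
    refine Finset.sum_congr rfl fun l _ => ?_
    simp only [map_smul, LinearMap.smul_apply, smul_eq_mul]
    ring
  have h2 : ∑ k, ∑ l, v.repr x k * v.repr y l * L (v k) (v l) =
      ∑ k, ∑ l, v.repr x l * v.repr y k * L (v l) (v k) := Finset.sum_comm
  have h3 : R x y z w = 1 / 2 * (∑ k, ∑ l, v.repr x k * v.repr y l * L (v k) (v l)) +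
      1 / 2 * ∑ k, ∑ l, v.repr x l * v.repr y k * L (v l) (v k) := by
    rw [← h2, ← h1, hL]; ring
  rw [h3]
  simp only [Finset.mul_sum, ← Finset.sum_add_distrib]
  refine Finset.sum_congr rfl fun k _ => Finset.sum_congr rfl fun l _ => ?_
  simp only [hL]
  rw [hR.anti (v k) (v l), pc]
  ring

/-- the sectional curvatures of `kn H K` are negative -/
def KNeg (H K : V →ₗ[ℝ] V →ₗ[ℝ] ℝ) : Prop :=
  ∀ x y, LinearIndependent ℝ ![x, y] → kn H K x y x y < 0

theorem KNeg.secP {H K : V →ₗ[ℝ] V →ₗ[ℝ] ℝ} (hH : Symm H) (hK : Symm K) (h : KNeg H K) :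
    SecP (-H) K := by
  intro x y hxy
  have := h x y hxy
  simp only [kn, hH y x, hK y x] at this
  simp only [LinearMap.neg_apply]
  linarith

theorem cxNeg_of_kn [FiniteDimensional ℝ V] {H K : V →ₗ[ℝ] V →ₗ[ℝ] ℝ} (hH : Symm H)
    (hK : Symm K) (h : KNeg H K) (hd : 3 ≤ finrank ℝ V) : CxNeg (kn H K) := by
  have hs := h.secP hH hK
  obtain ⟨v, hv1, hv2⟩ := exists_joint hH.neg hK hs hd
  set c : Fin (finrank ℝ V) → Fin (finrank ℝ V) → ℝ := fun k l =>
    (-H) (v k) (v k) * K (v l) (v l) + K (v k) (v k) * (-H) (v l) (v l) with hc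
  have hcpos : ∀ k l, k ≠ l → 0 < c k l := by
    intro k l hkl
    have h1 := hs (v k) (v l) (by
      rw [LinearIndependent.pair_iff]
      intro s t hst
      have h2 := v.linearIndependent
      rw [linearIndependent_iff'] at h2
      have h3 := h2 {k, l} (fun i => if i = k then s else t) (by
        rw [Finset.sum_pair hkl]
        simp only [if_true, if_neg (Ne.symm hkl)]
        exact hst)
      have h4 := h3 k (by simp)
      have h5 := h3 l (by simp)
      simp only [if_true] at h4
      rw [if_neg (Ne.symm hkl)] at h5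
      exact ⟨h4, h5⟩)
    rw [hv1 k l hkl] at h1
    simp only [hc]
    linarith
  have hkn : ∀ x y z w, kn H K x y z w = -∑ k, ∑ l, 1 / 2 * c k l *
      (pc v x y k l * pc v z w k l) := by
    intro x y z w
    have h1 := kn_diag v hv1 hv2 x y z w
    rw [kn_neg_left] at h1
    rw [← neg_eq_iff_eq_neg, h1]
    rfl
  intro x y u w hun
  by_contra hneg
  push Not at hneg
  have hsum : cxs (kn H K) x y u w = -∑ k, ∑ l, 1 / 2 * c k l *
      ((pc v x u k l - pc v y w k l) ^ 2 + (pc v x w k l + pc v y u k l) ^ 2) := by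
    simp only [cxs, hkn]
    have e : ∀ k l, 1 / 2 * c k l *
      ((pc v x u k l - pc v y w k l) ^ 2 + (pc v x w k l + pc v y u k l) ^ 2) =
      1 / 2 * c k l * (pc v x u k l * pc v x u k l) +
      1 / 2 * c k l * (pc v y w k l * pc v y w k l) +
      1 / 2 * c k l * (pc v x w k l * pc v x w k l) +
      1 / 2 * c k l * (pc v y u k l * pc v y u k l) -
      2 * (1 / 2 * c k l * (pc v x u k l * pc v y w k l)) +
      2 * (1 / 2 * c k l * (pc v x w k l * pc v y u k l)) := by
      intro k l; ring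
    simp only [e, Finset.sum_add_distrib, Finset.sum_sub_distrib, ← Finset.mul_sum]
    ring
  have hterm : ∀ k l, 0 ≤ 1 / 2 * c k l *
      ((pc v x u k l - pc v y w k l) ^ 2 + (pc v x w k l + pc v y u k l) ^ 2) := by
    intro k l
    by_cases hkl : k = l
    · subst hkl
      have : ∀ a b : V, pc v a b k k = 0 := fun a b => by rw [pc]; ring
      simp [this]
    · have := hcpos k l hkl
      positivity
  rw [hsum] at hneg
  have h0 : ∑ k, ∑ l, 1 / 2 * c k l *
      ((pc v x u k l - pc v y w k l) ^ 2 + (pc v x w k l + pc v y u k l) ^ 2) = 0 :=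
    le_antisymm (by linarith) (Finset.sum_nonneg fun k _ => Finset.sum_nonneg fun l _ => hterm k l)
  have hz : ∀ k l, pc v x u k l = pc v y w k l ∧ pc v x w k l = -pc v y u k l := by
    intro k l
    have h1 := (Finset.sum_eq_zero_iff_of_nonneg (fun k _ =>
      Finset.sum_nonneg fun l _ => hterm k l)).1 h0 k (Finset.mem_univ _)
    have h2 := (Finset.sum_eq_zero_iff_of_nonneg (fun l _ => hterm k l)).1 h1 l
      (Finset.mem_univ _)
    by_cases hkl : k = l
    · subst hkl
      have : ∀ a b : V, pc v a b k k = 0 := fun a b => by rw [pc]; ring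
      simp [this]
    · have h3 := hcpos k l hkl
      have h4 : (pc v x u k l - pc v y w k l) ^ 2 + (pc v x w k l + pc v y u k l) ^ 2 = 0 := by
        rcases mul_eq_zero.1 h2 with h5 | h5
        · linarith
        · exact h5
      have h5 : (pc v x u k l - pc v y w k l) ^ 2 = 0 := by
        nlinarith [sq_nonneg (pc v x u k l - pc v y w k l), sq_nonneg (pc v x w k l + pc v y u k l)]
      have h6 : (pc v x w k l + pc v y u k l) ^ 2 = 0 := by linarith
      have h7 := pow_eq_zero_iff (two_ne_zero) |>.1 h5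
      have h8 := pow_eq_zero_iff (two_ne_zero) |>.1 h6
      exact ⟨by linarith, by linarith⟩
  have hA : ∀ a b : V, (unitR x u a b : ℝ) = unitR y w a b := by
    intro a b
    rw [curv_expand v unit_curv x u, curv_expand v unit_curv y w]
    exact Finset.sum_congr rfl fun k _ => Finset.sum_congr rfl fun l _ => by rw [(hz k l).1]
  have hB : ∀ a b : V, (unitR x w a b : ℝ) = -unitR y u a b := by
    intro a b
    rw [curv_expand v unit_curv x w, curv_expand v unit_curv y u, ← Finset.sum_neg_distrib]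
    refine Finset.sum_congr rfl fun k _ => ?_
    rw [← Finset.sum_neg_distrib]
    exact Finset.sum_congr rfl fun l _ => by rw [(hz k l).2]; ring
  have h1 : cxs unitR x y u w = 0 := by
    simp only [cxs]
    have p1 : (unitR x u y w : ℝ) = unitR y w x u := (unit_curv.pair x u y w).symm
    have p2 : (unitR x w y u : ℝ) = unitR y u x w := (unit_curv.pair x w y u).symm
    have a1 := hA x u
    have a2 := hA y w
    have a3 := hB x w
    have a4 := hB y u
    linarith
  linarith

/-- negative curvature: the strict sign -/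
theorem strict_sign (e : OrthonormalBasis (Fin m × Bool) ℝ V) {H K : V →ₗ[ℝ] V →ₗ[ℝ] ℝ}
    (hH : Symm H) (hK : Symm K) (hm : 2 ≤ m) (h : KNeg H K) :
    0 < (-1) ^ m * gbc e (kn H K) := by
  have hfin : FiniteDimensional ℝ V := Module.Finite.of_basis e.toBasis
  have hcard : finrank ℝ V = 2 * m := by
    rw [finrank_eq_card_basis e.toBasis, Fintype.card_prod, Fintype.card_fin, Fintype.card_bool,
      mul_comm]
  obtain ⟨S, hS⟩ := exists_hyperplane e (by omega)
  refine point_strict e (kn_curv hH hK) (cxNeg_of_kn hH hK h (by omega)) S hS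
    fun n a b _ _ => op_nonpos hH hK (fun x y => ?_) n a b
  have h1 := (h.secP hH hK).nonneg x y
  simp only [kn, hH y x, hK y x]
  simp only [LinearMap.neg_apply] at h1
  linarith

/-- one hyperplane -/
theorem hyper_sign (e : OrthonormalBasis (Fin m × Bool) ℝ V) {R T : V → V → V → V → ℝ}
    (hR : AlgCurv R) {κ : ℝ} (hκ : 0 ≤ κ) (hC : CxNonpos (shiftT R κ)) (S : Submodule ℝ V)
    (hS : finrank ℝ S + 1 = 2 * m) {H K : V →ₗ[ℝ] V →ₗ[ℝ] ℝ} (hH : Symm H) (hK : Symm K)
    (hs : ∀ x ∈ S, ∀ y ∈ S, kn H K x y x y ≤ 0) (hT : OpNonposOn T S)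
    (hRT : ∀ x ∈ S, ∀ y ∈ S, ∀ z ∈ S, ∀ w ∈ S, R x y z w = kn H K x y z w + T x y z w) :
    roundGB m κ ≤ (-1) ^ m * gbc e R := by
  have hfin : FiniteDimensional ℝ V := Module.Finite.of_basis e.toBasis
  refine point_strong e hR hκ hC S hS fun n a b ha hb => ?_
  have h1 := op_nonpos (V := S) (H := H.compl₁₂ S.subtype S.subtype)
    (K := K.compl₁₂ S.subtype S.subtype) (fun x y => hH x y) (fun x y => hK x y)
    (fun x y => hs x x.2 y y.2) n (fun i => ⟨a i, ha i⟩) (fun i => ⟨b i, hb i⟩)
  have h2 := hT n a b ha hb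
  have h3 : ∀ i j, R (a i) (b i) (a j) (b j) =
      kn (H.compl₁₂ S.subtype S.subtype) (K.compl₁₂ S.subtype S.subtype)
        ⟨a i, ha i⟩ ⟨b i, hb i⟩ ⟨a j, ha j⟩ ⟨b j, hb j⟩ + T (a i) (b i) (a j) (b j) := by
    intro i j
    rw [hRT _ (ha i) _ (hb i) _ (ha j) _ (hb j)]
    rfl
  simp only [h3, Finset.sum_add_distrib]
  linarith

end Pool.Agent.Q188.KN
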