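import Pool.Agent.Q188.KN.Basic

/-!
# Kulkarni–Nomizu products with nonnegative sectional values are nonnegative on all bivectors
-/

set_option autoImplicit false

namespace Pool.Agent.Q188.KN

open Module

section algebra

variable {V : Type*} [AddCommGroup V] [Module ℝ V]

theorem SecN.swap {H K : V →ₗ[ℝ] V →ₗ[ℝ] ℝ} (h : SecN H K) : SecN K H := fun x y => by
  have := h x y
  linarith

theorem SecN.neg {H K : V →ₗ[ℝ] V →ₗ[ℝ] ℝ} (h : SecN H K) : SecN (-H) (-K) := fun x y => by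
  have := h x y
  simp only [LinearMap.neg_apply]
  linarith

theorem OpN.of_neg {H K : V →ₗ[ℝ] V →ₗ[ℝ] ℝ} (h : OpN (-H) (-K)) : OpN H K := fun n a b => by
  have := h n a b
  simpa [kn] using this

theorem Symm.neg {H : V →ₗ[ℝ] V →ₗ[ℝ] ℝ} (h : Symm H) : Symm (-H) := fun x y => by
  simp [h x y]

theorem op_of_zero {H K : V →ₗ[ℝ] V →ₗ[ℝ] ℝ} (h : ∀ x y, K x y = 0) : OpN H K := fun n a b => by
  simp [kn, h]

theorem op_of_zero' {H K : V →ₗ[ℝ] V →ₗ[ℝ] ℝ} (h : ∀ x y, H x y = 0) : OpN H K := fun n a b => by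
  simp [kn, h]

/-- an affine function of a real variable that is bounded below is constant -/
theorem const_of_bdd {d c : ℝ} (h : ∀ t : ℝ, 0 ≤ d + t * c) : c = 0 := by
  by_contra hc
  have h1 := h (-(d + 1) / c)
  rw [div_mul_cancel₀ _ hc] at h1
  linarith

/-- the linear term -/
theorem linear_id {H K : V →ₗ[ℝ] V →ₗ[ℝ] ℝ} (hs : SecN H K) (hH : Symm H) (hK : Symm K) {x : V}
    (hx : ∀ y, K x y = 0) (hxx : H x x = 0) (z y : V) : H x z * K y y = H x y * K z y := by
  have h1 : 2 * (H x z * K y y - H x y * K z y) = 0 := by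
    refine const_of_bdd (d := H z z * K y y + K z z * H y y - 2 * (H z y * K z y)) fun t => ?_
    have h2 := hs (t • x + z) y
    simp only [map_add, map_smul, LinearMap.add_apply, LinearMap.smul_apply, smul_eq_mul, hx, hxx,
      mul_zero, zero_add, hH z x, hK z x] at h2
    linarith
  linarith

/-- nonnegative forms: null vectors are in the kernel -/
theorem ker_of_null {K : V →ₗ[ℝ] V →ₗ[ℝ] ℝ} (hK : Symm K) (S : Submodule ℝ V)
    (h0 : ∀ x ∈ S, 0 ≤ K x x) {x : V} (hxS : x ∈ S) (hx : K x x = 0) {y : V} (hy : y ∈ S) :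
    K x y = 0 := by
  have h1 : 2 * K x y = 0 := by
    refine const_of_bdd (d := K y y) fun t => ?_
    have h2 := h0 (t • x + y) (S.add_mem (S.smul_mem _ hxS) hy)
    simp only [map_add, map_smul, LinearMap.add_apply, LinearMap.smul_apply, smul_eq_mul, hx,
      mul_zero, zero_add, hK y x] at h2
    linarith
  linarith

/-- the case `K = κ φ ⊗ φ` -/
theorem op_rank_one {H K : V →ₗ[ℝ] V →ₗ[ℝ] ℝ} (hs : SecN H K) (φ : V →ₗ[ℝ] ℝ) (κ : ℝ)
    (hκ : 0 ≤ κ) (hK : ∀ x y, K x y = κ * (φ x * φ y)) : OpN H K := by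
  by_cases hz : ∀ x, κ * φ x = 0
  · exact op_of_zero fun x y => by rw [hK, ← mul_assoc, hz, zero_mul]
  push Not at hz
  obtain ⟨y0, hy0⟩ := hz
  have hκ0 : κ ≠ 0 := left_ne_zero_of_mul hy0
  have hφ0 : φ y0 ≠ 0 := right_ne_zero_of_mul hy0
  have hκ' : 0 < κ := lt_of_le_of_ne hκ (Ne.symm hκ0)
  have hpos : ∀ ξ, φ ξ = 0 → 0 ≤ H ξ ξ := by
    intro ξ hξ
    have h1 := hs y0 ξ
    simp only [hK, hξ, mul_zero, zero_add, sub_zero] at h1
    have h2 : 0 < κ * (φ y0 * φ y0) := mul_pos hκ' (mul_self_pos.2 hφ0)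
    exact nonneg_of_mul_nonneg_right h1 h2
  intro n a b
  have e1 : ∀ i j, kn H K (a i) (b i) (a j) (b j) =
      κ * H (φ (b i) • a i - φ (a i) • b i) (φ (b j) • a j - φ (a j) • b j) := by
    intro i j
    unfold kn
    simp only [hK, map_sub, map_smul, LinearMap.sub_apply, LinearMap.smul_apply, smul_eq_mul]
    ring
  simp only [e1, ← Finset.mul_sum]
  refine mul_nonneg hκ ?_
  have e2 : ∑ i, ∑ j, H (φ (b i) • a i - φ (a i) • b i) (φ (b j) • a j - φ (a j) • b j) =
      H (∑ i, (φ (b i) • a i - φ (a i) • b i)) (∑ j, (φ (b j) • a j - φ (a j) • b j)) := by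
    rw [map_sum H, LinearMap.sum_apply]
    refine Finset.sum_congr rfl fun i _ => ?_
    rw [map_sum]
  rw [e2]
  refine hpos _ ?_
  rw [map_sum]
  refine Finset.sum_eq_zero fun i _ => ?_
  simp only [map_sub, map_smul, smul_eq_mul]
  ring

/-- the two null vectors of a plane of signature `(1, 1)` -/
theorem two_null {H K : V →ₗ[ℝ] V →ₗ[ℝ] ℝ} (hH : Symm H) (hK : Symm K)
    (h0 : ∀ x, K x x = 0 → 0 ≤ H x x) {s t : V} (hs : K s s = 1) (ht : K t t = -1) :
    0 ≤ H s s + H t t := by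
  set c := K s t with hc
  have hr : 0 < Real.sqrt (c ^ 2 + 1) := Real.sqrt_pos.2 (by positivity)
  have hr2 : Real.sqrt (c ^ 2 + 1) ^ 2 = c ^ 2 + 1 := Real.sq_sqrt (by positivity)
  set r := Real.sqrt (c ^ 2 + 1) with hrdef
  have hcr : |c| < r := by
    refine abs_lt_of_sq_lt_sq ?_ hr.le
    rw [hr2]; linarith
  obtain ⟨hc1, hc2⟩ := abs_lt.1 hcr
  have key : ∀ α : ℝ, α ^ 2 + 2 * α * c - 1 = 0 → 0 ≤ α ^ 2 * H s s + 2 * α * H s t + H t t := by
    intro α hα
    have h1 := h0 (α • s + t) (by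
      simp only [map_add, map_smul, LinearMap.add_apply, LinearMap.smul_apply, smul_eq_mul, hs, ht,
        hK t s, ← hc]
      linarith)
    simp only [map_add, map_smul, LinearMap.add_apply, LinearMap.smul_apply, smul_eq_mul,
      hH t s] at h1
    linarith
  have k1 := key (-c + r) (by nlinarith)
  have k2 := key (-c - r) (by nlinarith)
  have k3 : 0 ≤ (c + r) * ((-c + r) ^ 2 * H s s + 2 * (-c + r) * H s t + H t t) :=
    mul_nonneg (by linarith) k1
  have k4 : 0 ≤ (-c + r) * ((-c - r) ^ 2 * H s s + 2 * (-c - r) * H s t + H t t) :=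
    mul_nonneg (by linarith) k2
  have e : (c + r) * ((-c + r) ^ 2 * H s s + 2 * (-c + r) * H s t + H t t) +
      (-c + r) * ((-c - r) ^ 2 * H s s + 2 * (-c - r) * H s t + H t t) =
      2 * r * (H s s + H t t) := by
    have e0 : (c + r) * (-c + r) = 1 := by nlinarith
    linear_combination (2 * r * H s s) * e0
  have k5 : 0 ≤ 2 * r * (H s s + H t t) := by rw [← e]; linarith
  exact nonneg_of_mul_nonneg_right k5 (by positivity)

theorem scale_pos {K : V →ₗ[ℝ] V →ₗ[ℝ] ℝ} {x : V} (hx : 0 < K x x) :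
    K ((1 / Real.sqrt (K x x)) • x) ((1 / Real.sqrt (K x x)) • x) = 1 := by
  simp only [map_smul, LinearMap.smul_apply, smul_eq_mul]
  have h := Real.mul_self_sqrt hx.le
  have h1 : 0 < Real.sqrt (K x x) := Real.sqrt_pos.2 hx
  field_simp
  rw [sq, h]

theorem scale_neg {K : V →ₗ[ℝ] V →ₗ[ℝ] ℝ} {x : V} (hx : K x x < 0) :
    K ((1 / Real.sqrt (-K x x)) • x) ((1 / Real.sqrt (-K x x)) • x) = -1 := by
  simp only [map_smul, LinearMap.smul_apply, smul_eq_mul]
  have h := Real.mul_self_sqrt (neg_pos.2 hx).le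
  have h1 : 0 < Real.sqrt (-K x x) := Real.sqrt_pos.2 (neg_pos.2 hx)
  field_simp
  rw [sq, h]; ring

/-- the S-lemma for an indefinite form, equality version -/
theorem s_lemma {H K : V →ₗ[ℝ] V →ₗ[ℝ] ℝ} (hH : Symm H) (hK : Symm K)
    (h0 : ∀ x, K x x = 0 → 0 ≤ H x x) (hp : ∃ s, 0 < K s s) (hn : ∃ t, K t t < 0) :
    ∃ μ : ℝ, ∀ x, 0 ≤ H x x + μ * K x x := by
  obtain ⟨s0, hs0⟩ := hp
  obtain ⟨t0, ht0⟩ := hn
  set A : Set ℝ := {r | ∃ s, K s s = 1 ∧ r = -H s s} with hA
  have hne : A.Nonempty := ⟨_, _, scale_pos hs0, rfl⟩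
  have hub : ∀ t, K t t = -1 → H t t ∈ upperBounds A := by
    rintro t ht r ⟨s, hs, rfl⟩
    have := two_null hH hK h0 hs ht
    linarith
  have hbdd : BddAbove A := ⟨_, hub _ (scale_neg ht0)⟩
  refine ⟨sSup A, fun x => ?_⟩
  rcases lt_trichotomy (K x x) 0 with hx | hx | hx
  · have h1 := csSup_le hne (hub _ (scale_neg hx))
    simp only [map_smul, LinearMap.smul_apply, smul_eq_mul] at h1
    have h := Real.mul_self_sqrt (neg_pos.2 hx).le
    have h2 : 0 < Real.sqrt (-K x x) := Real.sqrt_pos.2 (neg_pos.2 hx)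
    have h3 : 1 / Real.sqrt (-K x x) * (1 / Real.sqrt (-K x x) * H x x) = H x x / (-K x x) := by
      rw [← mul_assoc, div_mul_div_comm, one_mul, h]; ring
    rw [h3, le_div_iff₀ (neg_pos.2 hx)] at h1
    linarith
  · rw [hx, mul_zero, add_zero]
    exact h0 x hx
  · have h1 := le_csSup hbdd (show -H ((1 / Real.sqrt (K x x)) • x) ((1 / Real.sqrt (K x x)) • x)
      ∈ A from ⟨_, scale_pos hx, rfl⟩)
    simp only [map_smul, LinearMap.smul_apply, smul_eq_mul] at h1
    have h := Real.mul_self_sqrt hx.le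
    have h2 : 0 < Real.sqrt (K x x) := Real.sqrt_pos.2 hx
    have h3 : -(1 / Real.sqrt (K x x) * (1 / Real.sqrt (K x x) * H x x)) = -H x x / K x x := by
      rw [← mul_assoc, div_mul_div_comm, one_mul, h]; ring
    rw [h3, div_le_iff₀ hx] at h1
    linarith

/-- `K` is Lorentzian with time direction `t` -/
def Lor (K : V →ₗ[ℝ] V →ₗ[ℝ] ℝ) (t : V) : Prop :=
  K t t = -1 ∧ ∀ u, u ≠ 0 → K t u = 0 → 0 < K u u

/-- the positive form obtained from a Lorentzian form -/
noncomputable def wick (K : V →ₗ[ℝ] V →ₗ[ℝ] ℝ) (t : V) : V →ₗ[ℝ] V →ₗ[ℝ] ℝ :=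
  K + (2 : ℝ) • LinearMap.mk₂ ℝ (fun x y => K t x * K t y)
    (fun x x' y => by simp only [map_add]; ring) (fun c x y => by simp; ring)
    (fun x y y' => by simp only [map_add]; ring) (fun c x y => by simp; ring)

theorem wick_apply (K : V →ₗ[ℝ] V →ₗ[ℝ] ℝ) (t x y : V) :
    wick K t x y = K x y + 2 * (K t x * K t y) := by
  simp [wick]

theorem wick_symm {K : V →ₗ[ℝ] V →ₗ[ℝ] ℝ} (hK : Symm K) (t : V) : Symm (wick K t) := fun x y => by
  rw [wick_apply, wick_apply, hK x y]; ring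

theorem Lor.split {K : V →ₗ[ℝ] V →ₗ[ℝ] ℝ} {t : V} (h : Lor K t) (hK : Symm K) (x y : V) :
    K t (x + K t x • t) = 0 ∧
      K (x + K t x • t) (y + K t y • t) = K x y + K t x * K t y := by
  refine ⟨?_, ?_⟩
  · simp only [map_add, map_smul, smul_eq_mul, h.1]; ring
  · simp only [map_add, map_smul, LinearMap.add_apply, LinearMap.smul_apply, smul_eq_mul, h.1,
      hK x t]
    ring

theorem wick_pos {K : V →ₗ[ℝ] V →ₗ[ℝ] ℝ} {t : V} (h : Lor K t) (hK : Symm K) {x : V}
    (hx : x ≠ 0) : 0 < wick K t x x := by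
  rw [wick_apply]
  obtain ⟨h1, h2⟩ := h.split hK x x
  by_cases hu : x + K t x • t = 0
  · have h3 : K t x ≠ 0 := by
      intro h0
      rw [h0, zero_smul, add_zero] at hu
      exact hx hu
    have h4 : K x x + K t x * K t x = 0 := by rw [← h2, hu]; simp
    have h5 : 0 < K t x * K t x := mul_self_pos.2 h3
    linarith
  · have h3 := h.2 _ hu h1
    rw [h2] at h3
    nlinarith [mul_self_nonneg (K t x)]

theorem Lor.cs {K : V →ₗ[ℝ] V →ₗ[ℝ] ℝ} {t : V} (h : Lor K t) (hK : Symm K) {u v : V}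
    (hu : K t u = 0) (hv : K t v = 0) : K u v * K u v ≤ K u u * K v v := by
  by_cases hv0 : v = 0
  · simp [hv0]
  have h1 := h.2 v hv0 hv
  have h2 : 0 ≤ K (K v v • u - K u v • v) (K v v • u - K u v • v) := by
    by_cases h0 : K v v • u - K u v • v = 0
    · rw [h0]; simp
    · exact (h.2 _ h0 (by simp [hu, hv])).le
  simp only [map_sub, map_smul, LinearMap.sub_apply, LinearMap.smul_apply, smul_eq_mul,
    hK v u] at h2
  have h3 : 0 ≤ K v v * (K u u * K v v - K u v * K u v) := by linarith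
  have h4 := nonneg_of_mul_nonneg_right h3 h1
  linarith

theorem wick_sec {K : V →ₗ[ℝ] V →ₗ[ℝ] ℝ} {t : V} (h : Lor K t) (hK : Symm K) :
    SecN (wick K t) K := by
  intro x y
  simp only [wick_apply]
  obtain ⟨h1, h2⟩ := h.split hK x x
  obtain ⟨h3, h4⟩ := h.split hK y y
  obtain ⟨-, h5⟩ := h.split hK x y
  have h6 := h.cs hK h1 h3
  rw [h2, h4, h5] at h6
  nlinarith

theorem exists_two_orth [FiniteDimensional ℝ V] (f g : V →ₗ[ℝ] ℝ) (h : 3 ≤ finrank ℝ V) :
    ∃ y, y ≠ 0 ∧ f y = 0 ∧ g y = 0 := by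
  have h1 : LinearMap.ker (f.prod g) ≠ ⊥ := LinearMap.ker_ne_bot_of_finrank_lt (by
    rw [finrank_prod, finrank_self]; omega)
  obtain ⟨y, hy, hy0⟩ := (Submodule.ne_bot_iff _).1 h1
  rw [LinearMap.mem_ker, LinearMap.prod_apply] at hy
  exact ⟨y, hy0, (Prod.mk_eq_zero.1 hy).1, (Prod.mk_eq_zero.1 hy).2⟩

theorem kn_add_smul (H P K : V →ₗ[ℝ] V →ₗ[ℝ] ℝ) (ε : ℝ) (x y z w : V) :
    kn (H + ε • P) K x y z w = kn H K x y z w + ε * kn P K x y z w := by
  simp only [kn, LinearMap.add_apply, LinearMap.smul_apply, smul_eq_mul]; ring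

/-- the Lorentzian case -/
theorem op_lor [FiniteDimensional ℝ V] {H K : V →ₗ[ℝ] V →ₗ[ℝ] ℝ} (hH : Symm H) (hK : Symm K)
    (hs : SecN H K) (hd : 3 ≤ finrank ℝ V) {t : V} (h : Lor K t) : OpN H K := by
  have hnull : ∀ x, K x x = 0 → 0 ≤ H x x := by
    intro x hx
    obtain ⟨y, hy0, hy1, hy2⟩ := exists_two_orth (K t) (K x) hd
    have h1 := h.2 y hy0 hy1
    have h2 := hs x y
    rw [hx, hy2] at h2
    have h3 : 0 ≤ H x x * K y y := by linarith
    exact nonneg_of_mul_nonneg_left h3 h1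
  have hpos : ∃ s, 0 < K s s := by
    obtain ⟨y, hy0, hy1, -⟩ := exists_two_orth (K t) (K t) hd
    exact ⟨y, h.2 y hy0 hy1⟩
  obtain ⟨μ, hμ⟩ := s_lemma hH hK hnull hpos ⟨t, by rw [h.1]; norm_num⟩
  have hε : ∀ ε : ℝ, 0 < ε → OpN (H + ε • wick K t) K := by
    intro ε hε
    refine op_of_pos (fun x y => ?_) hK 1 μ (fun x hx => ?_) (fun x y => ?_)
    · simp [hH x y, wick_symm hK t x y]
    · have h1 := wick_pos h hK hx
      have h2 := hμ x
      have h3 := mul_pos hε h1
      simp only [LinearMap.add_apply, LinearMap.smul_apply, smul_eq_mul]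
      linarith
    · have h1 := hs x y
      have h2 := mul_nonneg hε.le (wick_sec h hK x y)
      simp only [LinearMap.add_apply, LinearMap.smul_apply, smul_eq_mul]
      linarith
  intro n a b
  have h1 : ∀ ε : ℝ, 0 < ε → 0 ≤ (∑ i, ∑ j, kn H K (a i) (b i) (a j) (b j)) +
      ε * ∑ i, ∑ j, kn (wick K t) K (a i) (b i) (a j) (b j) := by
    intro ε he
    have := hε ε he n a b
    simp only [kn_add_smul, Finset.sum_add_distrib, ← Finset.mul_sum] at this
    exact this
  by_contra hneg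
  push Not at hneg
  set A := ∑ i, ∑ j, kn H K (a i) (b i) (a j) (b j) with hA
  set B := ∑ i, ∑ j, kn (wick K t) K (a i) (b i) (a j) (b j) with hB
  have h2 := h1 (-A / (2 * (|B| + 1))) (by
    have : 0 ≤ |B| := abs_nonneg _
    have : 0 < -A := by linarith
    positivity)
  have h3 : -A / (2 * (|B| + 1)) * B ≤ -A / 2 := by
    have hB1 : B ≤ |B| := le_abs_self _
    have hB0 : 0 ≤ |B| := abs_nonneg _
    have hA0 : 0 < -A := by linarith
    rw [div_mul_eq_mul_div, div_le_div_iff₀ (by positivity) (by norm_num)]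
    nlinarith
  linarith

/-- from a null vector to a Lorentzian form -/
theorem lor_of_null {H K : V →ₗ[ℝ] V →ₗ[ℝ] ℝ} (hK : Symm K)
    (hs : SecN H K) (hnd : ∀ x, (∀ y, K x y = 0) → x = 0) {x : V} (hx : K x x = 0)
    (hHx : 0 < H x x) (hn : ∃ t, K t t < 0) : ∃ t, Lor K t := by
  obtain ⟨t0, ht0⟩ := hn
  set t := (1 / Real.sqrt (-K t0 t0)) • t0 with ht
  have htt : K t t = -1 := scale_neg ht0
  have hge : ∀ y, K x y = 0 → 0 ≤ K y y := by
    intro y hy
    have h1 := hs x y
    rw [hx, hy] at h1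
    have h3 : 0 ≤ H x x * K y y := by linarith
    exact nonneg_of_mul_nonneg_right h3 hHx
  refine ⟨t, htt, fun u hu htu => ?_⟩
  by_contra hneg
  push Not at hneg
  have ha : K x t ≠ 0 := fun h0 => by
    have := hge t h0
    rw [htt] at this
    linarith
  have h1 := hge (K x u • t - K x t • u) (by simp only [map_sub, map_smul, smul_eq_mul]; ring)
  simp only [map_sub, map_smul, LinearMap.sub_apply, LinearMap.smul_apply, smul_eq_mul, htt, htu,
    hK u t] at h1
  have h2 : 0 < K x t * K x t := mul_self_pos.2 ha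
  have h3 : K x t * K x t * K u u ≤ 0 := mul_nonpos_of_nonneg_of_nonpos h2.le hneg
  have h4 : K x u * K x u = 0 := le_antisymm (by linarith) (mul_self_nonneg _)
  have hb : K x u = 0 := mul_self_eq_zero.1 h4
  have hu0 : K u u = 0 := by
    rw [hb] at h1
    have h5 : 0 ≤ K x t * K x t * K u u := by linarith
    have h6 : K x t * K x t * K u u = 0 := le_antisymm h3 h5
    exact (mul_eq_zero.1 h6).resolve_left h2.ne'
  refine hu (hnd u fun z => ?_)
  have h7 : K u (z - (K x z / K x t) • t) = 0 :=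
    ker_of_null hK (LinearMap.ker (K x)) (fun y hy => hge y hy) (x := u) hb hu0 (by
      rw [LinearMap.mem_ker, map_sub, map_smul, smul_eq_mul, div_mul_cancel₀ _ ha, sub_self])
  rw [map_sub, map_smul, smul_eq_mul, hK u t, htu, mul_zero, sub_zero] at h7
  exact h7

/-- the case where `H` vanishes on the null vectors of `K` -/
theorem op_null_zero [FiniteDimensional ℝ V] {H K : V →ₗ[ℝ] V →ₗ[ℝ] ℝ} (hH : Symm H)
    (hK : Symm K) (hs : SecN H K) (hd : 3 ≤ finrank ℝ V) (hnd : ∀ x, (∀ y, K x y = 0) → x = 0)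
    (hp : ∃ s, 0 < K s s) (hn : ∃ t, K t t < 0) (h0 : ∀ x, K x x = 0 → H x x = 0) : OpN H K := by
  obtain ⟨μ, hμ⟩ := s_lemma hH hK (fun x hx => (h0 x hx).ge) hp hn
  obtain ⟨ν, hν⟩ := s_lemma hH.neg hK (fun x hx => by simp [h0 x hx]) hp hn
  obtain ⟨s, hss⟩ := hp
  obtain ⟨t, htt⟩ := hn
  have h1 : μ + ν = 0 := by
    have a1 := hμ s
    have a2 := hν s
    have a3 := hμ t
    have a4 := hν t
    simp only [LinearMap.neg_apply] at a2 a4
    have b1 : 0 ≤ (μ + ν) * K s s := by linarith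
    have b2 : 0 ≤ (μ + ν) * K t t := by linarith
    have b3 := nonneg_of_mul_nonneg_left b1 hss
    nlinarith
  have hdiag : ∀ x, H x x = -μ * K x x := by
    intro x
    have a1 := hμ x
    have a2 := hν x
    simp only [LinearMap.neg_apply] at a2
    have : ν = -μ := by linarith
    rw [this] at a2
    linarith
  have hall : ∀ x y, H x y = -μ * K x y := by
    intro x y
    have a1 := hdiag (x + y)
    have a2 := hdiag x
    have a3 := hdiag y
    simp only [map_add, LinearMap.add_apply, hH y x, hK y x] at a1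
    linarith
  -- the sign of `μ`
  have hμ1 : 0 ≤ μ := by
    have h2 := hs s (t - (K s t / K s s) • s)
    have e1 : K s (t - (K s t / K s s) • s) = 0 := by
      rw [map_sub, map_smul, smul_eq_mul, div_mul_cancel₀ _ hss.ne', sub_self]
    have e2 : K (t - (K s t / K s s) • s) (t - (K s t / K s s) • s) < 0 := by
      rw [map_sub K, LinearMap.sub_apply, map_smul K, LinearMap.smul_apply, e1, smul_zero, sub_zero,
        map_sub, map_smul, smul_eq_mul, hK t s]
      have : 0 ≤ K s t / K s s * K s t := by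
        rw [div_mul_eq_mul_div]
        exact div_nonneg (mul_self_nonneg _) hss.le
      linarith
    simp only [hall, e1, mul_zero, sub_zero] at h2
    set q := K (t - (K s t / K s s) • s) (t - (K s t / K s s) • s) with hq
    have h3 : 0 ≤ (-(2 * (K s s * q))) * μ := by linarith
    have h4 : 0 < -(2 * (K s s * q)) := by nlinarith
    exact nonneg_of_mul_nonneg_right h3 h4
  have hμ2 : μ ≤ 0 := by
    obtain ⟨t', ht's, ht't⟩ : ∃ t', K s t' = 0 ∧ K t' t' < 0 := by
      refine ⟨t - (K s t / K s s) • s, ?_, ?_⟩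
      · rw [map_sub, map_smul, smul_eq_mul, div_mul_cancel₀ _ hss.ne', sub_self]
      · have e1 : K s (t - (K s t / K s s) • s) = 0 := by
          rw [map_sub, map_smul, smul_eq_mul, div_mul_cancel₀ _ hss.ne', sub_self]
        rw [map_sub K, LinearMap.sub_apply, map_smul K, LinearMap.smul_apply, e1, smul_zero,
          sub_zero, map_sub, map_smul, smul_eq_mul, hK t s]
        have : 0 ≤ K s t / K s s * K s t := by
          rw [div_mul_eq_mul_div]
          exact div_nonneg (mul_self_nonneg _) hss.le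
        linarith
    -- a vector orthogonal to both with nonzero square
    obtain ⟨y, hy1, hy2, hy3⟩ : ∃ y, K s y = 0 ∧ K t' y = 0 ∧ K y y ≠ 0 := by
      by_contra hno
      push Not at hno
      obtain ⟨y, hy0, hy1, hy2⟩ := exists_two_orth (K s) (K t') hd
      refine hy0 (hnd y fun z => ?_)
      have hz : ∀ z, K s z = 0 → K t' z = 0 → K y z = 0 := by
        intro z hz1 hz2
        have b1 := hno (y + z) (by rw [map_add, hy1, hz1, add_zero])
          (by rw [map_add, hy2, hz2, add_zero])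
        have b2 := hno y hy1 hy2
        have b3 := hno z hz1 hz2
        simp only [map_add, LinearMap.add_apply, b2, b3, hK z y] at b1
        linarith
      have h5 := hz (z - (K s z / K s s) • s - (K t' z / K t' t') • t') (by
          rw [map_sub, map_sub, map_smul, map_smul, smul_eq_mul, smul_eq_mul,
            div_mul_cancel₀ _ hss.ne', ht's]; ring)
        (by
          rw [map_sub, map_sub, map_smul, map_smul, smul_eq_mul, smul_eq_mul,
            div_mul_cancel₀ _ ht't.ne, hK t' s, ht's]; ring)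
      rw [map_sub, map_sub, map_smul, map_smul, hK y s, hK y t', hy1, hy2, smul_zero, smul_zero,
        sub_zero, sub_zero] at h5
      exact h5
    rcases lt_or_gt_of_ne hy3 with h5 | h5
    · have h6 := hs t' y
      simp only [hall, hy2, mul_zero, sub_zero] at h6
      have h7 : 0 < 2 * (K t' t' * K y y) := by nlinarith [mul_pos_of_neg_of_neg ht't h5]
      have h8 : 0 ≤ 2 * (K t' t' * K y y) * (-μ) := by linarith
      have := nonneg_of_mul_nonneg_right h8 h7
      linarith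
    · have h6 := hs s y
      simp only [hall, hy1, mul_zero, sub_zero] at h6
      have h7 : 0 < 2 * (K s s * K y y) := by positivity
      have h8 : 0 ≤ 2 * (K s s * K y y) * (-μ) := by linarith
      have := nonneg_of_mul_nonneg_right h8 h7
      linarith
  have hμ0 : μ = 0 := le_antisymm hμ2 hμ1
  exact op_of_zero' fun x y => by rw [hall, hμ0]; ring

end algebra

end Pool.Agent.Q188.KN
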