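import Pool.Agent.Q188.KN.Geo

/-!
# Codimension two, normal bundle of any signature
-/

set_option autoImplicit false

namespace Pool.Agent.Q188.KN

open Module Pool.Agent.W666.GB Pool.Agent.TH598.GV

/-- rotating a plane set with nonnegative inner products into a quadrant: the main case -/
theorem quad_core {X : Type*} (P Q : X → ℝ) (h : ∀ x y, 0 ≤ P x * P y + Q x * Q y) {x1 x2 : X}
    (h1 : 0 < Q x1) (h2 : Q x2 < 0) :
    ∃ a b : ℝ, a ^ 2 + b ^ 2 = 1 ∧ ((∀ x, 0 ≤ a * P x + b * Q x) ∨ ∀ x, a * P x + b * Q x ≤ 0) ∧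
      ((∀ x, 0 ≤ -b * P x + a * Q x) ∨ ∀ x, -b * P x + a * Q x ≤ 0) := by
  -- reduction to `0 < P x1`
  suffices H : ∀ P : X → ℝ, (∀ x y, 0 ≤ P x * P y + Q x * Q y) → 0 < P x1 →
      ∃ a b : ℝ, a ^ 2 + b ^ 2 = 1 ∧ (∀ x, 0 ≤ a * P x + b * Q x) ∧
        (∀ x, -b * P x + a * Q x ≤ 0) by
    have h12 : P x1 * P x2 > 0 := by nlinarith [h x1 x2, mul_pos h1 (neg_pos.2 h2)]
    rcases lt_trichotomy (P x1) 0 with hp | hp | hp
    · obtain ⟨a, b, hab, ha, hb⟩ := H (fun x => -P x) (fun x y => by linarith [h x y])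
        (by linarith)
      refine ⟨a, -b, by rw [neg_sq]; exact hab, Or.inr fun x => ?_, Or.inr fun x => ?_⟩
      · linarith [ha x]
      · linarith [hb x]
    · rw [hp, zero_mul] at h12
      exact absurd h12 (lt_irrefl _)
    · obtain ⟨a, b, hab, ha, hb⟩ := H P h hp
      exact ⟨a, b, hab, Or.inl ha, Or.inr hb⟩
  clear h P
  intro P h hp1
  have hp2 : 0 < P x2 := by
    have h3 : 0 < P x1 * P x2 := by nlinarith [h x1 x2, mul_pos h1 (neg_pos.2 h2)]
    exact (mul_pos_iff_of_pos_left hp1).1 h3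
  have hP : ∀ x, 0 ≤ P x := by
    intro x
    have a1 := mul_nonneg (neg_nonneg.2 h2.le) (h x x1)
    have a2 := mul_nonneg h1.le (h x x2)
    have a3 : 0 ≤ P x * (-Q x2 * P x1 + Q x1 * P x2) := by linarith
    have a4 : 0 < -Q x2 * P x1 + Q x1 * P x2 := by
      have := mul_pos (neg_pos.2 h2) hp1
      have := mul_pos h1 hp2
      linarith
    exact nonneg_of_mul_nonneg_left a3 a4
  have hP0 : ∀ x, P x = 0 → Q x = 0 := by
    intro x hx
    have a1 := h x x1
    have a2 := h x x2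
    rw [hx, zero_mul, zero_add] at a1 a2
    have a3 := nonneg_of_mul_nonneg_left a1 h1
    nlinarith
  set A : Set ℝ := {r | ∃ x, 0 < P x ∧ r = Q x / P x} with hA
  have hne : A.Nonempty := ⟨_, x1, hp1, rfl⟩
  have hbdd : BddAbove A := by
    refine ⟨P x2 / (-Q x2), ?_⟩
    rintro r ⟨x, hx, rfl⟩
    rw [div_le_div_iff₀ hx (neg_pos.2 h2)]
    linarith [h x x2]
  set M := sSup A with hM
  have hM1 : ∀ x, Q x ≤ M * P x := by
    intro x
    rcases (hP x).lt_or_eq with hx | hx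
    · have := le_csSup hbdd (show Q x / P x ∈ A from ⟨x, hx, rfl⟩)
      rwa [div_le_iff₀ hx] at this
    · rw [← hx, mul_zero, hP0 x hx.symm]
  have hM0 : 0 < M := by
    have a1 := hM1 x1
    have a2 : 0 < M * P x1 := lt_of_lt_of_le h1 a1
    exact (mul_pos_iff_of_pos_right hp1).1 a2
  have hM2 : ∀ x, 0 ≤ P x + M * Q x := by
    intro x
    rcases le_or_gt 0 (Q x) with hq | hq
    · have := hP x
      positivity
    · have a1 : M ≤ P x / (-Q x) := by
        refine csSup_le hne ?_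
        rintro r ⟨y, hy, rfl⟩
        rw [div_le_div_iff₀ hy (neg_pos.2 hq)]
        linarith [h x y]
      rw [le_div_iff₀ (neg_pos.2 hq)] at a1
      linarith
  have hs : 0 < Real.sqrt (1 + M ^ 2) := Real.sqrt_pos.2 (by positivity)
  have hs2 : Real.sqrt (1 + M ^ 2) ^ 2 = 1 + M ^ 2 := Real.sq_sqrt (by positivity)
  refine ⟨1 / Real.sqrt (1 + M ^ 2), M / Real.sqrt (1 + M ^ 2), ?_, fun x => ?_, fun x => ?_⟩
  · rw [div_pow, div_pow, hs2, ← add_div, one_pow, div_self (by positivity)]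
  · have : 1 / Real.sqrt (1 + M ^ 2) * P x + M / Real.sqrt (1 + M ^ 2) * Q x =
        (P x + M * Q x) / Real.sqrt (1 + M ^ 2) := by ring
    rw [this]
    exact div_nonneg (hM2 x) hs.le
  · have : -(M / Real.sqrt (1 + M ^ 2)) * P x + 1 / Real.sqrt (1 + M ^ 2) * Q x =
        -((M * P x - Q x) / Real.sqrt (1 + M ^ 2)) := by ring
    rw [this]
    exact neg_nonpos.2 (div_nonneg (by linarith [hM1 x]) hs.le)

theorem quad {X : Type*} (P Q : X → ℝ) (h : ∀ x y, 0 ≤ P x * P y + Q x * Q y) :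
    ∃ a b : ℝ, a ^ 2 + b ^ 2 = 1 ∧ ((∀ x, 0 ≤ a * P x + b * Q x) ∨ ∀ x, a * P x + b * Q x ≤ 0) ∧
      ((∀ x, 0 ≤ -b * P x + a * Q x) ∨ ∀ x, -b * P x + a * Q x ≤ 0) := by
  by_cases hQ : (∀ x, 0 ≤ Q x) ∨ ∀ x, Q x ≤ 0
  · by_cases hP : (∀ x, 0 ≤ P x) ∨ ∀ x, P x ≤ 0
    · exact ⟨1, 0, by norm_num, by simpa using hP, by simpa using hQ⟩
    · push Not at hP
      obtain ⟨⟨x2, h2⟩, x1, h1⟩ := hP
      obtain ⟨a, b, hab, ha, hb⟩ := quad_core Q P (fun x y => by linarith [h x y]) h1 h2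
      refine ⟨b, a, by rw [add_comm]; exact hab, ?_, ?_⟩
      · rcases ha with ha | ha
        · exact Or.inl fun x => by linarith [ha x]
        · exact Or.inr fun x => by linarith [ha x]
      · rcases hb with hb | hb
        · exact Or.inr fun x => by linarith [hb x]
        · exact Or.inl fun x => by linarith [hb x]
  · push Not at hQ
    obtain ⟨⟨x2, h2⟩, x1, h1⟩ := hQ
    exact quad_core P Q h h1 h2

variable {V : Type} [NormedAddCommGroup V] [InnerProductSpace ℝ V] {m : ℕ}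

/-- the curvature tensor of a hypersurface with second fundamental form `f` -/
def sqf (f : V →ₗ[ℝ] V →ₗ[ℝ] ℝ) (x y z w : V) : ℝ := f x z * f y w - f x w * f y z

/-- semidefinite forms -/
theorem sqf_op [FiniteDimensional ℝ V] {f : V →ₗ[ℝ] V →ₗ[ℝ] ℝ} (hf : Symm f)
    (h : (∀ x, 0 ≤ f x x) ∨ ∀ x, f x x ≤ 0) (n : ℕ) (a b : Fin n → V) :
    0 ≤ ∑ i, ∑ j, sqf f (a i) (b i) (a j) (b j) := by
  have hcs : ∀ x y, f x y * f y x ≤ f x x * f y y := by
    rcases h with h | h
    · exact LinearMap.BilinForm.apply_mul_apply_le_of_forall_zero_le f h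
    · intro x y
      have := LinearMap.BilinForm.apply_mul_apply_le_of_forall_zero_le (-f)
        (fun x => by simpa using h x) x y
      simpa using this
  have h1 := op_nonneg hf hf (fun x y => by
    have := hcs x y
    rw [hf y x] at this
    linarith) n a b
  have e : ∀ i j, kn f f (a i) (b i) (a j) (b j) = 2 * sqf f (a i) (b i) (a j) (b j) :=
    fun i j => by simp only [kn, sqf]; ring
  simp only [e, ← Finset.mul_sum] at h1
  linarith

/-- two forms with arbitrary signs -/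
def twoF (ε₀ ε₁ : ℝ) (f g : V →ₗ[ℝ] V →ₗ[ℝ] ℝ) (x y z w : V) : ℝ :=
  ε₀ * sqf f x y z w + ε₁ * sqf g x y z w

theorem twoF_mixed (e : OrthonormalBasis (Fin m × Bool) ℝ V) {ε₀ ε₁ : ℝ}
    {f g : V →ₗ[ℝ] V →ₗ[ℝ] ℝ} (hf : Symm f) (hg : Symm g) (h0 : 0 ≤ ε₀) (h1 : ε₁ ≤ 0) {c : ℝ}
    (hc : 0 ≤ c) (hs : ∀ x y, twoF ε₀ ε₁ f g x y x y ≤ 0) :
    roundGB m c ≤ (-1) ^ m * gbc e (minusUnit (twoF ε₀ ε₁ f g) c) := by
  have hfin : FiniteDimensional ℝ V := Module.Finite.of_basis e.toBasis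
  set s := Real.sqrt ε₀ with hsdef
  set t := Real.sqrt (-ε₁) with htdef
  have hs2 : s * s = ε₀ := Real.mul_self_sqrt h0
  have ht2 : t * t = -ε₁ := Real.mul_self_sqrt (by linarith)
  set H : V →ₗ[ℝ] V →ₗ[ℝ] ℝ := (1 / 2 : ℝ) • (s • f - t • g) with hH
  set K : V →ₗ[ℝ] V →ₗ[ℝ] ℝ := s • f + t • g with hK
  have hHs : Symm H := fun x y => by simp [hH, hf x y, hg x y]
  have hKs : Symm K := fun x y => by simp [hK, hf x y, hg x y]
  have key : kn H K = twoF ε₀ ε₁ f g := by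
    funext x y z w
    simp only [kn, hH, hK, twoF, sqf, LinearMap.add_apply, LinearMap.sub_apply,
      LinearMap.smul_apply, smul_eq_mul]
    linear_combination (f x z * f y w - f x w * f y z) * hs2 -
      (g x z * g y w - g x w * g y z) * ht2
  rw [← key]
  refine sign_of_op e (kn_curv hHs hKs) hc (op_nonpos hHs hKs fun x y => ?_)
  rw [key]
  exact hs x y

theorem twoF_neg (e : OrthonormalBasis (Fin m × Bool) ℝ V) {ε₀ ε₁ : ℝ}
    {f g : V →ₗ[ℝ] V →ₗ[ℝ] ℝ} (hf : Symm f) (hg : Symm g) (h0 : ε₀ ≤ 0) (h1 : ε₁ ≤ 0) {c : ℝ}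
    (hc : 0 ≤ c) (hs : ∀ x y, twoF ε₀ ε₁ f g x y x y ≤ 0) :
    roundGB m c ≤ (-1) ^ m * gbc e (minusUnit (twoF ε₀ ε₁ f g) c) := by
  have hfin : FiniteDimensional ℝ V := Module.Finite.of_basis e.toBasis
  set s := Real.sqrt (-ε₀) with hsdef
  set t := Real.sqrt (-ε₁) with htdef
  have hs2 : s * s = -ε₀ := Real.mul_self_sqrt (by linarith)
  have ht2 : t * t = -ε₁ := Real.mul_self_sqrt (by linarith)
  obtain ⟨a, b, hab, ha, hb⟩ := quad (fun x : V => s * f x x) (fun x => t * g x x) (by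
    intro x y
    have h2 := hs x y
    simp only [twoF, sqf, hf y x, hg y x] at h2
    have h3 : 0 ≤ -ε₀ * (f x y * f x y) := mul_nonneg (by linarith) (mul_self_nonneg _)
    have h4 : 0 ≤ -ε₁ * (g x y * g x y) := mul_nonneg (by linarith) (mul_self_nonneg _)
    have e1 : s * f x x * (s * f y y) + t * g x x * (t * g y y) =
        -ε₀ * (f x x * f y y) + -ε₁ * (g x x * g y y) := by
      rw [← hs2, ← ht2]; ring
    rw [e1]
    linarith)
  set F : V →ₗ[ℝ] V →ₗ[ℝ] ℝ := (a * s) • f + (b * t) • g with hF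
  set G : V →ₗ[ℝ] V →ₗ[ℝ] ℝ := (-b * s) • f + (a * t) • g with hG
  have hFs : Symm F := fun x y => by simp [hF, hf x y, hg x y]
  have hGs : Symm G := fun x y => by simp [hG, hf x y, hg x y]
  have hF0 : (∀ x, 0 ≤ F x x) ∨ ∀ x, F x x ≤ 0 := by
    rcases ha with ha | ha
    · exact Or.inl fun x => by
        have := ha x
        simp only [hF, LinearMap.add_apply, LinearMap.smul_apply, smul_eq_mul]
        linarith
    · exact Or.inr fun x => by
        have := ha x
        simp only [hF, LinearMap.add_apply, LinearMap.smul_apply, smul_eq_mul]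
        linarith
  have hG0 : (∀ x, 0 ≤ G x x) ∨ ∀ x, G x x ≤ 0 := by
    rcases hb with hb | hb
    · exact Or.inl fun x => by
        have := hb x
        simp only [hG, LinearMap.add_apply, LinearMap.smul_apply, smul_eq_mul]
        linarith
    · exact Or.inr fun x => by
        have := hb x
        simp only [hG, LinearMap.add_apply, LinearMap.smul_apply, smul_eq_mul]
        linarith
  have key : ∀ x y z w, twoF ε₀ ε₁ f g x y z w = -(sqf F x y z w + sqf G x y z w) := by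
    intro x y z w
    simp only [hF, hG, twoF, sqf, LinearMap.add_apply, LinearMap.smul_apply, smul_eq_mul]
    have h0' : ε₀ = -(s * s) := by linarith
    have h1' : ε₁ = -(t * t) := by linarith
    have hab' : a * a = 1 - b * b := by linarith
    rw [h0', h1']
    linear_combination (-(s * s * (f x z * f y w - f x w * f y z)) -
      t * t * (g x z * g y w - g x w * g y z)) * (-hab)
  refine sign_of_op e ?_ hc fun n x y => ?_
  · constructor
    · intro x x' y z w; simp only [twoF, sqf, map_add, LinearMap.add_apply]; ring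
    · intro t x y z w
      simp only [twoF, sqf, map_smul, LinearMap.smul_apply, smul_eq_mul]; ring
    · intro x y z w; simp only [twoF, sqf]; ring
    · intro x y z w
      simp only [twoF, sqf, hf z x, hf w y, hf z y, hf w x, hg z x, hg w y, hg z y, hg w x]; ring
    · intro x y z w
      simp only [twoF, sqf, hf y x, hf z x, hf z y, hg y x, hg z x, hg z y]; ring
  · have e1 := sqf_op hFs hF0 n x y
    have e2 := sqf_op hGs hG0 n x y
    simp only [key, Finset.sum_neg_distrib, Finset.sum_add_distrib]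
    linarith

/-- the second fundamental form with values in the Euclidean plane -/
noncomputable def pairForm (f g : V →ₗ[ℝ] V →ₗ[ℝ] ℝ) :
    V →ₗ[ℝ] V →ₗ[ℝ] EuclideanSpace ℝ (Fin 2) :=
  LinearMap.mk₂ ℝ (fun x y => !₂[f x y, g x y])
    (fun x x' y => by ext i; fin_cases i <;> simp)
    (fun c x y => by ext i; fin_cases i <;> simp)
    (fun x y y' => by ext i; fin_cases i <;> simp)
    (fun c x y => by ext i; fin_cases i <;> simp)

theorem pairForm_inner (f g : V →ₗ[ℝ] V →ₗ[ℝ] ℝ) (x y z w : V) :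
    inner ℝ (pairForm f g x y) (pairForm f g z w) = f x y * f z w + g x y * g z w := by
  simp only [pairForm, LinearMap.mk₂_apply, PiLp.inner_apply, Fin.sum_univ_two]
  simp [mul_comm]

theorem twoF_pos (e : OrthonormalBasis (Fin m × Bool) ℝ V) {ε₀ ε₁ : ℝ}
    {f g : V →ₗ[ℝ] V →ₗ[ℝ] ℝ} (hf : Symm f) (hg : Symm g) (h0 : 0 ≤ ε₀) (h1 : 0 ≤ ε₁) {c : ℝ}
    (hc : 0 ≤ c) (hs : ∀ x y, twoF ε₀ ε₁ f g x y x y ≤ 0) :
    roundGB m c ≤ (-1) ^ m * gbc e (minusUnit (twoF ε₀ ε₁ f g) c) := by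
  have hfin : FiniteDimensional ℝ V := Module.Finite.of_basis e.toBasis
  set s := Real.sqrt ε₀ with hsdef
  set t := Real.sqrt ε₁ with htdef
  have hs2 : s * s = ε₀ := Real.mul_self_sqrt h0
  have ht2 : t * t = ε₁ := Real.mul_self_sqrt h1
  have key : Pool.Agent.Y489.SM.gauss (pairForm (s • f) (t • g)) = twoF ε₀ ε₁ f g := by
    funext x y z w
    simp only [Pool.Agent.Y489.SM.gauss, pairForm_inner, twoF, sqf, LinearMap.smul_apply,
      smul_eq_mul]
    rw [← hs2, ← ht2]; ring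
  have h2 := Pool.Agent.Y489.SM.criterion e (pairForm (s • f) (t • g)) (fun x y => by
    ext i; fin_cases i <;> simp [pairForm, hf x y, hg x y]) hc (fun k hk0 hkm _ => Or.inr ⟨by
      rw [finrank_euclideanSpace_fin]; omega, fun x y => by rw [key]; exact hs x y⟩)
  rw [key] at h2
  exact h2

/-- two forms, arbitrary signs -/
theorem twoF_all (e : OrthonormalBasis (Fin m × Bool) ℝ V) (ε₀ ε₁ : ℝ)
    {f g : V →ₗ[ℝ] V →ₗ[ℝ] ℝ} (hf : Symm f) (hg : Symm g) {c : ℝ}
    (hc : 0 ≤ c) (hs : ∀ x y, twoF ε₀ ε₁ f g x y x y ≤ 0) :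
    roundGB m c ≤ (-1) ^ m * gbc e (minusUnit (twoF ε₀ ε₁ f g) c) := by
  rcases le_total 0 ε₀ with h0 | h0 <;> rcases le_total 0 ε₁ with h1 | h1
  · exact twoF_pos e hf hg h0 h1 hc hs
  · exact twoF_mixed e hf hg h0 h1 hc hs
  · have e1 : twoF ε₀ ε₁ f g = twoF ε₁ ε₀ g f := by
      funext x y z w; simp only [twoF]; ring
    rw [e1] at hs ⊢
    exact twoF_mixed e hg hf h1 h0 hc hs
  · exact twoF_neg e hf hg h0 h1 hc hs

/-- The curvature tensor which the Gauss equation gives for a second fundamental form `β` with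
values in the normal space `W` with scalar product `q` (of any signature) and ambient curvature
`-c`. -/
noncomputable def gaussQ {W : Type} [AddCommGroup W] [Module ℝ W] (q : W →ₗ[ℝ] W →ₗ[ℝ] ℝ)
    (β : V →ₗ[ℝ] V →ₗ[ℝ] W) (c : ℝ) (x y z w : V) : ℝ :=
  q (β x z) (β y w) - q (β x w) (β y z) -
    c * (inner ℝ x z * inner ℝ y w - inner ℝ x w * inner ℝ y z)

theorem gaussQ_bound {W : Type} [AddCommGroup W] [Module ℝ W]
    (e : OrthonormalBasis (Fin m × Bool) ℝ V) (q : W →ₗ[ℝ] W →ₗ[ℝ] ℝ)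
    (hq : ∀ a b, q a b = q b a) (β : V →ₗ[ℝ] V →ₗ[ℝ] W) (hβ : ∀ x y, β x y = β y x) {c : ℝ}
    (hW : finrank ℝ W = 2) (hc : 0 ≤ c)
    (hs : ∀ x y, q (β x x) (β y y) ≤ q (β x y) (β x y)) :
    roundGB m c ≤ (-1) ^ m * gbc e (gaussQ q β c) := by
  have hWf : FiniteDimensional ℝ W := Module.finite_of_finrank_pos (by omega)
  have hqs : LinearMap.IsSymm q := ⟨fun a b => hq a b⟩
  obtain ⟨w', hw'⟩ := LinearMap.BilinForm.exists_orthogonal_basis hqs
  obtain ⟨w, hw⟩ : ∃ w : Basis (Fin 2) ℝ W, ∀ i j, i ≠ j → q (w i) (w j) = 0 := by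
    refine ⟨w'.reindex (finCongr hW), fun i j hij => ?_⟩
    rw [Basis.reindex_apply, Basis.reindex_apply]
    exact hw' (fun h => hij ((finCongr hW).symm.injective h))
  set f : V →ₗ[ℝ] V →ₗ[ℝ] ℝ := β.compr₂ (w.coord 0) with hf
  set g : V →ₗ[ℝ] V →ₗ[ℝ] ℝ := β.compr₂ (w.coord 1) with hg
  have hfs : Symm f := fun x y => by simp [hf, hβ x y]
  have hgs : Symm g := fun x y => by simp [hg, hβ x y]
  have hqe : ∀ x y z u, q (β x y) (β z u) =
      q (w 0) (w 0) * (f x y * f z u) + q (w 1) (w 1) * (g x y * g z u) := by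
    intro x y z u
    have h1 := diag_apply w hw (β x y) (β z u)
    rw [Fin.sum_univ_two] at h1
    rw [h1]
    simp only [hf, hg, LinearMap.compr₂_apply, Basis.coord_apply]
    ring
  have key : gaussQ q β c = minusUnit (twoF (q (w 0) (w 0)) (q (w 1) (w 1)) f g) c := by
    funext x y z u
    simp only [gaussQ, minusUnit, twoF, sqf, hqe]
    ring
  rw [key]
  refine twoF_all e _ _ hfs hgs hc fun x y => ?_
  have h1 := hs x y
  rw [hqe, hqe] at h1
  simp only [twoF, sqf, hfs y x, hgs y x]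
  linarith

end Pool.Agent.Q188.KN
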