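import Pool.Agent.Q188.KN.Main

/-!
# Kulkarni–Nomizu products with positive sectional values: a common orthogonal basis
-/

set_option autoImplicit false

namespace Pool.Agent.Q188.KN

open Module

variable {V : Type*} [NormedAddCommGroup V] [InnerProductSpace ℝ V] [FiniteDimensional ℝ V]

/-- positive sectional values -/
def SecP (H K : V →ₗ[ℝ] V →ₗ[ℝ] ℝ) : Prop :=
  ∀ x y, LinearIndependent ℝ ![x, y] → 0 < H x x * K y y + K x x * H y y - 2 * (H x y * K x y)

omit [FiniteDimensional ℝ V] in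
theorem SecP.neg {H K : V →ₗ[ℝ] V →ₗ[ℝ] ℝ} (h : SecP H K) : SecP (-H) (-K) := fun x y hxy => by
  have := h x y hxy
  simp only [LinearMap.neg_apply]
  linarith

omit [FiniteDimensional ℝ V] in
theorem SecP.nonneg {H K : V →ₗ[ℝ] V →ₗ[ℝ] ℝ} (h : SecP H K) :
    SecN H K := by
  intro x y
  by_cases hxy : LinearIndependent ℝ ![x, y]
  · exact (h x y hxy).le
  · by_cases hx : x = 0
    · simp [hx]
    · rw [LinearIndependent.pair_iff' hx] at hxy
      push Not at hxy
      obtain ⟨a, ha⟩ := hxy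
      rw [← ha]
      simp only [map_smul, LinearMap.smul_apply, smul_eq_mul]
      nlinarith

theorem pos_of_mul_pos_of_nonneg_right' {a b : ℝ} (h : 0 < a * b) (hb : 0 ≤ b) : 0 < a := by
  by_contra ha
  push Not at ha
  have := mul_nonpos_of_nonpos_of_nonneg ha hb
  linarith

/-- a vector orthogonal to `f` and independent of `x` -/
theorem exists_orth_indep (hd : 3 ≤ finrank ℝ V) (f : V →ₗ[ℝ] ℝ) {x : V} (hx : x ≠ 0) :
    ∃ y, f y = 0 ∧ LinearIndependent ℝ ![x, y] := by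
  obtain ⟨y, hy0, hy1, hy2⟩ := exists_two_orth f (innerₛₗ ℝ x) hd
  refine ⟨y, hy1, ?_⟩
  rw [LinearIndependent.pair_iff' hx]
  intro a ha
  have h1 : inner ℝ x y = 0 := hy2
  rw [← ha, inner_smul_right, real_inner_self_eq_norm_sq] at h1
  rcases mul_eq_zero.1 h1 with h2 | h2
  · rw [h2, zero_smul] at ha
    exact hy0 ha.symm
  · exact hx (norm_eq_zero.1 (pow_eq_zero_iff (two_ne_zero)|>.1 h2))

omit [FiniteDimensional ℝ V] in
theorem indep_of_form {K : V →ₗ[ℝ] V →ₗ[ℝ] ℝ} {x y : V} (hx : x ≠ 0) (hxx : K x x = 0)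
    (hyy : K y y ≠ 0) : LinearIndependent ℝ ![x, y] := by
  rw [LinearIndependent.pair_iff' hx]
  rintro a rfl
  refine hyy ?_
  simp [hxx]

/-- the semidefinite case -/
theorem comb_semidef {H K : V →ₗ[ℝ] V →ₗ[ℝ] ℝ} (hK : Symm K) (hs : SecP H K)
    (hd : 3 ≤ finrank ℝ V) (hK0 : ∀ x, 0 ≤ K x x) :
    ∃ α β : ℝ, ∀ x, x ≠ 0 → 0 < α * H x x + β * K x x := by
  obtain ⟨ε, hε⟩ := pos_small (H := H) (K := K) hK0 fun x hx hxx => by
    have hker : ∀ y, K x y = 0 := fun y =>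
      ker_of_null hK ⊤ (fun x _ => hK0 x) (Submodule.mem_top (x := x)) hxx Submodule.mem_top
    obtain ⟨y, -, hxy⟩ := exists_orth_indep hd 0 hx
    have h1 := hs x y hxy
    rw [hxx, hker y] at h1
    have h2 : 0 < H x x * K y y := by linarith
    exact pos_of_mul_pos_of_nonneg_right' h2 (hK0 y)
  exact ⟨ε, 1, hε⟩

omit [FiniteDimensional ℝ V] in
theorem exists_null {K : V →ₗ[ℝ] V →ₗ[ℝ] ℝ} (hK : Symm K) {s t : V} (hs : 0 < K s s)
    (ht : K t t < 0) : ∃ α : ℝ, K (α • s + t) (α • s + t) = 0 := by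
  have h0 : 0 ≤ K s t ^ 2 - K s s * K t t := by nlinarith [mul_neg_of_pos_of_neg hs ht]
  have h1 := Real.sq_sqrt h0
  refine ⟨(-(K s t) + Real.sqrt (K s t ^ 2 - K s s * K t t)) / K s s, ?_⟩
  simp only [map_add, map_smul, LinearMap.add_apply, LinearMap.smul_apply, smul_eq_mul, hK t s]
  set r := Real.sqrt (K s t ^ 2 - K s s * K t t)
  have h2 : K s s ≠ 0 := hs.ne'
  field_simp
  linear_combination h1

/-- the Lorentzian case -/
theorem comb_lor {H K : V →ₗ[ℝ] V →ₗ[ℝ] ℝ} (hH : Symm H) (hK : Symm K) (hs : SecP H K)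
    (hd : 3 ≤ finrank ℝ V) {t : V} (h : Lor K t) :
    ∃ α β : ℝ, ∀ x, x ≠ 0 → 0 < α * H x x + β * K x x := by
  have hnull' : ∀ x, x ≠ 0 → K x x = 0 → 0 < H x x := by
    intro x hx0 hx
    obtain ⟨y, hy0, hy1, hy2⟩ := exists_two_orth (K t) (K x) hd
    have h1 := h.2 y hy0 hy1
    have h2 := hs x y (indep_of_form hx0 hx h1.ne')
    rw [hx, hy2] at h2
    have h3 : 0 < H x x * K y y := by linarith
    exact pos_of_mul_pos_of_nonneg_right' h3 h1.le
  have hnull : ∀ x, K x x = 0 → 0 ≤ H x x := by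
    intro x hx
    by_cases hx0 : x = 0
    · simp [hx0]
    · exact (hnull' x hx0 hx).le
  have hpos : ∃ s, 0 < K s s := by
    obtain ⟨y, hy0, hy1, -⟩ := exists_two_orth (K t) (K t) hd
    exact ⟨y, h.2 y hy0 hy1⟩
  obtain ⟨μ, hμ⟩ := s_lemma hH hK hnull hpos ⟨t, by rw [h.1]; norm_num⟩
  set P : V →ₗ[ℝ] V →ₗ[ℝ] ℝ := H + μ • K with hP
  have hPa : ∀ x y, P x y = H x y + μ * K x y := fun x y => by simp [hP]
  have hPs : Symm P := fun x y => by rw [hPa, hPa, hH x y, hK x y]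
  have hP0 : ∀ x, 0 ≤ P x x := fun x => by rw [hPa]; exact hμ x
  by_cases hA : ∀ x, x ≠ 0 → P x x = 0 → 0 < K x x
  · obtain ⟨ε, hε⟩ := pos_small (H := K) (K := P) hP0 hA
    refine ⟨1, ε + μ, fun x hx => ?_⟩
    have := hε x hx
    rw [hPa] at this
    linarith
  by_cases hB : ∀ x, x ≠ 0 → P x x = 0 → K x x < 0
  · obtain ⟨ε, hε⟩ := pos_small (H := -K) (K := P) hP0 (fun x hx hx' => by
      simpa using hB x hx hx')
    refine ⟨1, μ - ε, fun x hx => ?_⟩
    have := hε x hx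
    rw [hPa] at this
    simp only [LinearMap.neg_apply] at this
    linarith
  exfalso
  push Not at hA hB
  obtain ⟨x1, h10, h1P, h1K⟩ := hA
  obtain ⟨x2, h20, h2P, h2K⟩ := hB
  have hne : ∀ x, x ≠ 0 → P x x = 0 → K x x ≠ 0 := by
    intro x hx hxP hxK
    have := hnull' x hx hxK
    rw [hPa, hxK] at hxP
    linarith
  have h1K' : K x1 x1 < 0 := lt_of_le_of_ne h1K (hne x1 h10 h1P)
  have h2K' : 0 < K x2 x2 := lt_of_le_of_ne h2K (hne x2 h20 h2P).symm
  obtain ⟨α, hα⟩ := exists_null hK h2K' h1K'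
  have hker : ∀ x, P x x = 0 → ∀ y, P x y = 0 := fun x hx y =>
    ker_of_null hPs ⊤ (fun x _ => hP0 x) (Submodule.mem_top (x := x)) hx Submodule.mem_top
  refine hne (α • x2 + x1) ?_ ?_ hα
  · intro h0
    have e1 : x1 = (-α) • x2 := by
      rw [neg_smul]
      exact eq_neg_of_add_eq_zero_right h0
    rw [e1] at h1K'
    simp only [map_smul, LinearMap.smul_apply, smul_eq_mul] at h1K'
    nlinarith [mul_nonneg (mul_self_nonneg α) h2K'.le]
  · simp only [map_add, map_smul, LinearMap.add_apply, LinearMap.smul_apply, smul_eq_mul,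
      hker x1 h1P, hker x2 h2P]
    ring

/-- **Positive sectional values: some linear combination of the two forms is positive definite.** -/
theorem exists_comb {H K : V →ₗ[ℝ] V →ₗ[ℝ] ℝ} (hH : Symm H) (hK : Symm K) (hs : SecP H K)
    (hd : 3 ≤ finrank ℝ V) : ∃ α β : ℝ, ∀ x, x ≠ 0 → 0 < α * H x x + β * K x x := by
  by_cases hK0 : ∀ x, 0 ≤ K x x
  · exact comb_semidef hK hs hd hK0
  have hnegc : (∃ α β : ℝ, ∀ x, x ≠ 0 → 0 < α * (-H) x x + β * (-K) x x) →
      ∃ α β : ℝ, ∀ x, x ≠ 0 → 0 < α * H x x + β * K x x := by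
    rintro ⟨α, β, h⟩
    refine ⟨-α, -β, fun x hx => ?_⟩
    have := h x hx
    simp only [LinearMap.neg_apply] at this
    linarith
  by_cases hK1 : ∀ x, K x x ≤ 0
  · exact hnegc (comb_semidef hK.neg hs.neg hd fun x => by simpa using hK1 x)
  push Not at hK0 hK1
  obtain ⟨t, ht⟩ := hK0
  obtain ⟨s, hs1⟩ := hK1
  have hnd : ∀ x, (∀ y, K x y = 0) → x = 0 := by
    intro x hx
    by_contra hx0
    have h1 := hs x t (indep_of_form hx0 (hx x) ht.ne)
    have h2 := hs x s (indep_of_form hx0 (hx x) hs1.ne')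
    rw [hx x, hx t] at h1
    rw [hx x, hx s] at h2
    have h3 : 0 < H x x * K s s := by linarith
    have h4 := pos_of_mul_pos_of_nonneg_right' h3 hs1.le
    have h5 := mul_neg_of_pos_of_neg h4 ht
    linarith
  obtain ⟨α, hα⟩ := exists_null hK hs1 ht
  set x := α • s + t with hxdef
  have hx0 : x ≠ 0 := by
    intro h0
    have e1 : t = (-α) • s := by
      rw [neg_smul]
      exact eq_neg_of_add_eq_zero_right h0
    rw [e1] at ht
    simp only [map_smul, LinearMap.smul_apply, smul_eq_mul] at ht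
    nlinarith [mul_nonneg (mul_self_nonneg α) hs1.le]
  have hHx : H x x ≠ 0 := by
    intro h0
    obtain ⟨y, hy, hxy⟩ := exists_orth_indep hd (K x) hx0
    have h1 := hs x y hxy
    rw [hα, h0, hy] at h1
    linarith
  rcases lt_or_gt_of_ne hHx with h | h
  · obtain ⟨t', ht'⟩ := lor_of_null (H := -H) (K := -K) hK.neg (hs.nonneg).neg
      (fun x h1 => hnd x fun y => by simpa using h1 y) (x := x) (by simpa using hα)
      (by simpa using h) ⟨s, by simpa using hs1⟩
    exact hnegc (comb_lor hH.neg hK.neg hs.neg hd ht')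
  · obtain ⟨t', ht'⟩ := lor_of_null hK (hs.nonneg) hnd hα h ⟨t, ht⟩
    exact comb_lor hH hK hs hd ht'

/-- a common orthogonal basis -/
theorem exists_joint {H K : V →ₗ[ℝ] V →ₗ[ℝ] ℝ} (hH : Symm H) (hK : Symm K) (hs : SecP H K)
    (hd : 3 ≤ finrank ℝ V) : ∃ v : Basis (Fin (finrank ℝ V)) ℝ V,
      (∀ i j, i ≠ j → H (v i) (v j) = 0) ∧ ∀ i j, i ≠ j → K (v i) (v j) = 0 := by
  obtain ⟨α, β, hpos⟩ := exists_comb hH hK hs hd
  let G : V →ₗ[ℝ] V →ₗ[ℝ] ℝ := α • H + β • K
  have hG : Symm G := fun x y => by simp [G, hH x y, hK x y]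
  have hGp : ∀ x, x ≠ 0 → 0 < G x x := fun x hx => by simpa [G] using hpos x hx
  by_cases hα : α = 0
  · obtain ⟨v, h1, h2⟩ := joint_basis hG hH hGp
    refine ⟨v, h2, fun i j hij => ?_⟩
    have h3 := h1 i j hij
    simp only [G, hα, zero_smul, zero_add, LinearMap.smul_apply, smul_eq_mul] at h3
    rcases mul_eq_zero.1 h3 with h4 | h4
    · have h5 := hGp (v i) (v.ne_zero i)
      simp only [G, hα, h4, zero_smul, add_zero, LinearMap.zero_apply] at h5
      exact absurd h5 (lt_irrefl _)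
    · exact h4
  · obtain ⟨v, h1, h2⟩ := joint_basis hG hK hGp
    refine ⟨v, fun i j hij => ?_, h2⟩
    have h3 := h1 i j hij
    simp only [G, LinearMap.add_apply, LinearMap.smul_apply, smul_eq_mul, h2 i j hij, mul_zero,
      add_zero] at h3
    exact (mul_eq_zero.1 h3).resolve_left hα

end Pool.Agent.Q188.KN
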